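import Pool.Agent.helper97.BG.SigDefs

/-!
# Basic facts on pentagon data
-/

namespace Pool.Agent.helper97.BG

open Module Cardinal

variable {k K : Type*} [Field k] [Field K] [Algebra k K]

/-- index arithmetic in `Fin 5` -/
theorem ix (i : Fin 5) : i + 1 + 1 = i + 2 ∧ i + 1 + 2 = i + 3 ∧ i + 1 + 3 = i + 4 ∧
    i + 1 + 4 = i ∧ i + 2 + 1 = i + 3 ∧ i + 2 + 2 = i + 4 ∧ i + 2 + 3 = i ∧ i + 2 + 4 = i + 1 ∧
    i + 3 + 1 = i + 4 ∧ i + 3 + 2 = i ∧ i + 3 + 3 = i + 1 ∧ i + 3 + 4 = i + 2 ∧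
    i + 4 + 1 = i ∧ i + 4 + 2 = i + 1 ∧ i + 4 + 3 = i + 2 ∧ i + 4 + 4 = i + 3 := by
  revert i; decide

theorem ix_cases (i j : Fin 5) : j = i ∨ j = i + 1 ∨ j = i + 2 ∨ j = i + 3 ∨ j = i + 4 := by
  revert i j; decide

theorem PD.rel' (d : PD k K) (i : Fin 5) : d.V i ^ 5 * d.V (i + 1) ^ 5 = 1 - d.V (i + 3) ^ 5 := by
  obtain ⟨-, -, -, -, -, -, -, -, -, e1, e2, -⟩ := ix i
  have h := d.rel (i + 3)
  rw [e1, e2] at h
  linear_combination h

theorem PD.V0_tr (d : PD k K) : Transcendental k (d.V 0) := by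
  have := d.ind.transcendental 0
  simpa using this

theorem PD.V1_tr (d : PD k K) : Transcendental k (d.V 1) := by
  have := d.ind.transcendental 1
  simpa using this

theorem PD.V0V1_ne (d : PD k K) : d.V 0 ^ 5 * d.V 1 ^ 5 ≠ 1 := by
  intro h
  have hi := d.ind
  rw [algebraicIndependent_iff] at hi
  have := hi (MvPolynomial.X 0 ^ 5 * MvPolynomial.X 1 ^ 5 - 1) (by
    simp [h])
  have h2 := congrArg (MvPolynomial.eval (fun _ => (0 : k))) this
  simp at h2

theorem PD.V_ne (d : PD k K) (i : Fin 5) : d.V i ≠ 0 := by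
  have h0 : d.V 0 ≠ 0 := fun h => d.V0_tr (h ▸ isAlgebraic_zero)
  have h1 : d.V 1 ≠ 0 := fun h => d.V1_tr (h ▸ isAlgebraic_zero)
  have r0 := d.rel 0
  have r1 := d.rel 1
  have r3 := d.rel' 0
  have e1 : (0 : Fin 5) + 2 = 2 := rfl
  have e2 : (0 : Fin 5) + 3 = 3 := rfl
  have e3 : (1 : Fin 5) + 2 = 3 := rfl
  have e4 : (1 : Fin 5) + 3 = 4 := rfl
  have e5 : (0 : Fin 5) + 1 = 1 := rfl
  rw [e1, e2] at r0
  rw [e3, e4] at r1
  rw [e5, e2] at r3
  have h3 : d.V 3 ≠ 0 := by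
    intro h
    apply d.V0V1_ne
    rw [r3, h]
    ring
  have t0 : ∀ {x : K}, Transcendental k x → x ^ 5 ≠ 1 := by
    intro x hx h
    apply hx
    apply IsAlgebraic.of_pow (n := 5) (by norm_num)
    rw [h]
    exact isAlgebraic_one
  have h2 : d.V 2 ≠ 0 := by
    intro h
    apply t0 d.V0_tr
    rw [h] at r0
    linear_combination r0
  have h4 : d.V 4 ≠ 0 := by
    intro h
    apply t0 d.V1_tr
    rw [h] at r1
    linear_combination r1
  fin_cases i
  · exact h0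
  · exact h1
  · exact h2
  · exact h3
  · exact h4

theorem PD.v_ne_one (d : PD k K) (i : Fin 5) : d.V i ^ 5 ≠ 1 := by
  intro h
  have := d.rel i
  rw [h] at this
  have h2 : d.V (i + 2) ^ 5 * d.V (i + 3) ^ 5 = 0 := by linear_combination this
  exact mul_ne_zero (pow_ne_zero _ (d.V_ne _)) (pow_ne_zero _ (d.V_ne _)) h2

theorem PD.isAlg_adj_V (d : PD k K) (A : Subalgebra k K) (i : Fin 5)
    (h0 : IsAlgebraic A (d.V i)) (h1 : IsAlgebraic A (d.V (i + 1))) :
    ∀ j, IsAlgebraic A (d.V j) := by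
  have h3 : IsAlgebraic A (d.V (i + 3)) := by
    apply IsAlgebraic.of_pow (n := 5) (by norm_num)
    have : d.V (i + 3) ^ 5 = 1 - d.V i ^ 5 * d.V (i + 1) ^ 5 := by
      linear_combination d.rel' i
    rw [this]
    exact isAlgebraic_one.sub ((h0.pow 5).mul (h1.pow 5))
  have h2 : IsAlgebraic A (d.V (i + 2)) := by
    apply IsAlgebraic.of_pow (n := 5) (by norm_num)
    have : d.V (i + 2) ^ 5 = (1 - d.V i ^ 5) * (d.V (i + 3) ^ 5)⁻¹ := by
      rw [eq_mul_inv_iff_mul_eq₀ (pow_ne_zero _ (d.V_ne _))]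
      linear_combination d.rel i
    rw [this]
    exact (isAlgebraic_one.sub (h0.pow 5)).mul (IsAlgebraic.inv_iff.2 (h3.pow 5))
  have h4 : IsAlgebraic A (d.V (i + 4)) := by
    apply IsAlgebraic.of_pow (n := 5) (by norm_num)
    have r := d.rel (i + 1)
    obtain ⟨-, e1, e2, -⟩ := ix i
    rw [e1, e2] at r
    have : d.V (i + 4) ^ 5 = (1 - d.V (i + 1) ^ 5) * (d.V (i + 3) ^ 5)⁻¹ := by
      rw [eq_mul_inv_iff_mul_eq₀ (pow_ne_zero _ (d.V_ne _))]
      linear_combination r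
    rw [this]
    exact (isAlgebraic_one.sub (h1.pow 5)).mul (IsAlgebraic.inv_iff.2 (h3.pow 5))
  intro j
  rcases ix_cases i j with rfl | rfl | rfl | rfl | rfl
  · exact h0
  · exact h1
  · exact h2
  · exact h3
  · exact h4

theorem PD.isAlg_adj (d : PD k K) (A : Subalgebra k K) (i : Fin 5)
    (h0 : IsAlgebraic A (d.V i)) (h1 : IsAlgebraic A (d.V (i + 1))) :
    Algebra.IsAlgebraic A K := by
  have hV := d.isAlg_adj_V A i h0 h1
  have hk : ∀ a : k, IsAlgebraic A (algebraMap k K a) := by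
    intro a
    rw [IsScalarTower.algebraMap_apply k A K]
    exact isAlgebraic_algebraMap _
  have hy : IsAlgebraic A d.y := by
    apply IsAlgebraic.of_pow (n := 5) (by norm_num)
    rw [d.yrel, Fin.sum_univ_five]
    exact (((((hk _).mul ((hV _).pow 5)).add ((hk _).mul ((hV _).pow 5))).add
      ((hk _).mul ((hV _).pow 5))).add ((hk _).mul ((hV _).pow 5))).add
      ((hk _).mul ((hV _).pow 5))
  constructor
  intro x
  have hx : x ∈ IntermediateField.adjoin k (insert d.y (Set.range d.V)) := by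
    rw [d.gen]
    exact IntermediateField.mem_top
  induction hx using IntermediateField.adjoin_induction with
  | mem x hx =>
    rcases hx with rfl | ⟨j, rfl⟩
    · exact hy
    · exact hV j
  | algebraMap a => exact hk a
  | add x y _ _ hx hy => exact hx.add hy
  | inv x _ hx => exact IsAlgebraic.inv_iff.2 hx
  | mul x y _ _ hx hy => exact hx.mul hy

/-- `(V 0, V 1)` is a transcendence basis. -/
theorem PD.isTB (d : PD k K) : IsTranscendenceBasis k ![d.V 0, d.V 1] := by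
  rw [isTranscendenceBasis_iff_algebraicIndependent_isAlgebraic]
  refine ⟨d.ind, ?_⟩
  apply d.isAlg_adj _ 0
  · have : d.V 0 ∈ Algebra.adjoin k (Set.range ![d.V 0, d.V 1]) :=
      Algebra.subset_adjoin ⟨0, rfl⟩
    exact isAlgebraic_algebraMap (⟨_, this⟩ : Algebra.adjoin k (Set.range ![d.V 0, d.V 1]))
  · have : d.V (0 + 1) ∈ Algebra.adjoin k (Set.range ![d.V 0, d.V 1]) :=
      Algebra.subset_adjoin ⟨1, rfl⟩
    exact isAlgebraic_algebraMap (⟨_, this⟩ : Algebra.adjoin k (Set.range ![d.V 0, d.V 1]))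

theorem PD.trdeg_K (d : PD k K) : Algebra.trdeg k K = 2 := by
  have h := d.isTB.lift_cardinalMk_eq_trdeg
  rw [Cardinal.mk_fin] at h
  apply Cardinal.lift_injective.{0}
  rw [← h]
  simp

theorem PD.ind_adj (d : PD k K) (i : Fin 5) :
    AlgebraicIndependent k ![d.V i, d.V (i + 1)] := by
  haveI : Algebra.IsAlgebraic (Algebra.adjoin k (Set.range ![d.V i, d.V (i + 1)])) K := by
    apply d.isAlg_adj _ i
    · have : d.V i ∈ Algebra.adjoin k (Set.range ![d.V i, d.V (i + 1)]) :=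
        Algebra.subset_adjoin ⟨0, rfl⟩
      exact isAlgebraic_algebraMap
        (⟨_, this⟩ : Algebra.adjoin k (Set.range ![d.V i, d.V (i + 1)]))
    · have : d.V (i + 1) ∈ Algebra.adjoin k (Set.range ![d.V i, d.V (i + 1)]) :=
        Algebra.subset_adjoin ⟨1, rfl⟩
      exact isAlgebraic_algebraMap
        (⟨_, this⟩ : Algebra.adjoin k (Set.range ![d.V i, d.V (i + 1)]))
  have h := Algebra.IsAlgebraic.isTranscendenceBasis_of_lift_le_trdeg_of_finite k
    ![d.V i, d.V (i + 1)] (by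
      rw [d.trdeg_K, Cardinal.mk_fin]
      simp)
  exact h.1

theorem exists_rot (d : PD k K) (i : Fin 5) :
    ∃ d' : PD k K, (∀ j, d'.V j = d.V (j + i)) ∧ (∀ j, d'.c j = d.c (j + i)) ∧
      d'.y = d.y := by
  refine ⟨⟨fun j => d.V (j + i), d.y, fun j => d.c (j + i), ?_, ?_, ?_, ?_⟩,
    fun _ => rfl, fun _ => rfl, rfl⟩
  · intro j
    have h := d.rel (j + i)
    have e1 : j + 2 + i = j + i + 2 := by abel
    have e2 : j + 3 + i = j + i + 3 := by abel
    rw [e1, e2]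
    exact h
  · rw [d.yrel]
    exact (Equiv.sum_comp (Equiv.addRight i) (fun j => algebraMap k K (d.c j) * d.V j ^ 5)).symm
  · have h := d.ind_adj i
    have e1 : (0 : Fin 5) + i = i := zero_add i
    have e2 : (1 : Fin 5) + i = i + 1 := add_comm _ _
    rw [e1, e2]
    exact h
  · rw [← d.gen]
    congr 2
    ext x
    constructor
    · rintro ⟨j, rfl⟩
      exact ⟨j + i, rfl⟩
    · rintro ⟨j, rfl⟩
      exact ⟨j - i, by simp⟩

theorem two_eq_zero (k K : Type*) [Field k] [Field K] [Algebra k K] [CharP k 2] :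
    (2 : K) = 0 := by
  have h2k : (2 : k) = 0 := by exact_mod_cast CharP.cast_eq_zero k 2
  have := congrArg (algebraMap k K) h2k
  rwa [map_ofNat, map_zero] at this

/-- the relations, written around `i` -/
theorem PD.rels (d : PD k K) (i : Fin 5) :
    d.V i ^ 5 * d.V (i + 1) ^ 5 = 1 - d.V (i + 3) ^ 5 ∧
    d.V (i + 1) ^ 5 * d.V (i + 2) ^ 5 = 1 - d.V (i + 4) ^ 5 ∧
    d.V (i + 2) ^ 5 * d.V (i + 3) ^ 5 = 1 - d.V i ^ 5 ∧
    d.V (i + 3) ^ 5 * d.V (i + 4) ^ 5 = 1 - d.V (i + 1) ^ 5 ∧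
    d.V (i + 4) ^ 5 * d.V i ^ 5 = 1 - d.V (i + 2) ^ 5 := by
  have q1 := d.rel' i
  have q2 := d.rel' (i + 1)
  have q3 := d.rel' (i + 2)
  have q4 := d.rel' (i + 3)
  have q5 := d.rel' (i + 4)
  obtain ⟨a1, -, a2, -, a3, -, a4, -, a5, -, a6, -, a7, -, a8, -⟩ := ix i
  rw [a1, a2] at q2
  rw [a3, a4] at q3
  rw [a5, a6] at q4
  rw [a7, a8] at q5
  exact ⟨q1, q2, q3, q4, q5⟩

theorem PD.yrel_at (d : PD k K) (i : Fin 5) : d.y ^ 5 = algebraMap k K (d.c i) * d.V i ^ 5 +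
      algebraMap k K (d.c (i + 1)) * d.V (i + 1) ^ 5 +
      algebraMap k K (d.c (i + 2)) * d.V (i + 2) ^ 5 +
      algebraMap k K (d.c (i + 3)) * d.V (i + 3) ^ 5 +
      algebraMap k K (d.c (i + 4)) * d.V (i + 4) ^ 5 := by
  rw [d.yrel, ← Equiv.sum_comp (Equiv.addLeft i)
    (fun j => algebraMap k K (d.c j) * d.V j ^ 5), Fin.sum_univ_five]
  simp only [Equiv.coe_addLeft, add_zero]

/-- admissibility is preserved by the change of chart -/
theorem Adm.sig {k : Type*} [Field k] [CharP k 2] {c : Fin 5 → k} (h : Adm c) (i : Fin 5) :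
    Adm ![c i + c (i + 2), c (i + 1) + c (i + 4), c (i + 2),
      c (i + 2) + c (i + 3) + c (i + 4), c (i + 4)] := by
  have h2 : (2 : k) = 0 := by exact_mod_cast CharP.cast_eq_zero k 2
  obtain ⟨a1, a12, a2, a14, a3, a22, a4, a24, a5, a32, a6, a34, a7, a42, a8, a44⟩ := ix i
  have t0 := h.two i
  have t1 := h.two (i + 1)
  have t2 := h.two (i + 2)
  have t3 := h.two (i + 3)
  have t4 := h.two (i + 4)
  have s0 := h.three i
  have s1 := h.three (i + 1)
  have s2 := h.three (i + 2)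
  have s3 := h.three (i + 3)
  have s4 := h.three (i + 4)
  rw [a12] at t1
  rw [a22] at t2
  rw [a32] at t3
  rw [a42] at t4
  rw [a1, a12] at s1
  rw [a3, a22] at s2
  rw [a5, a32] at s3
  rw [a7, a42] at s4
  have hd : ∑ j, c j * c (j + 1) * c (j + 2) = c i * c (i + 1) * c (i + 2) +
      c (i + 1) * c (i + 2) * c (i + 3) + c (i + 2) * c (i + 3) * c (i + 4) +
      c (i + 3) * c (i + 4) * c i + c (i + 4) * c i * c (i + 1) := by
    rw [← Equiv.sum_comp (Equiv.addLeft i) (fun j => c j * c (j + 1) * c (j + 2)),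
      Fin.sum_univ_five]
    simp only [Equiv.coe_addLeft, add_zero, a1, a12, a3, a22, a5, a32, a7, a42]
  have hdisc := h.disc
  rw [hd] at hdisc
  have o0 := h.one i
  have o1 := h.one (i + 1)
  have o2 := h.one (i + 2)
  have o3 := h.one (i + 3)
  have o4 := h.one (i + 4)
  clear hd
  generalize c i = x0 at *
  generalize c (i + 1) = x1 at *
  generalize c (i + 2) = x2 at *
  generalize c (i + 3) = x3 at *
  generalize c (i + 4) = x4 at *
  constructor
  · intro j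
    fin_cases j
    · exact t0
    · change x1 + x4 ≠ 0
      rwa [add_comm]
    · exact o2
    · exact s2
    · exact o4
  · intro j
    fin_cases j
    · change x0 + x2 + x2 ≠ 0
      intro e
      exact o0 (by linear_combination e - x2 * h2)
    · change x1 + x4 + (x2 + x3 + x4) ≠ 0
      intro e
      exact s1 (by linear_combination e - x4 * h2)
    · exact t2
    · change x2 + x3 + x4 + (x0 + x2) ≠ 0
      intro e
      exact s3 (by linear_combination e - x2 * h2)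
    · change x4 + (x1 + x4) ≠ 0
      intro e
      exact o1 (by linear_combination e - x4 * h2)
  · intro j
    fin_cases j
    · change x0 + x2 + (x1 + x4) + x2 ≠ 0
      intro e
      exact s4 (by linear_combination e - x2 * h2)
    · change x1 + x4 + x2 + (x2 + x3 + x4) ≠ 0
      intro e
      exact t1 (by linear_combination e - (x2 + x4) * h2)
    · change x2 + (x2 + x3 + x4) + x4 ≠ 0
      intro e
      exact o3 (by linear_combination e - (x2 + x4) * h2)
    · change x2 + x3 + x4 + x4 + (x0 + x2) ≠ 0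
      intro e
      exact t3 (by linear_combination e - (x2 + x4) * h2)
    · change x4 + (x0 + x2) + (x1 + x4) ≠ 0
      intro e
      exact s0 (by linear_combination e - x4 * h2)
  · rw [Fin.sum_univ_five]
    change (x0 + x2) * (x1 + x4) * x2 + (x1 + x4) * x2 * (x2 + x3 + x4) +
      x2 * (x2 + x3 + x4) * x4 + (x2 + x3 + x4) * x4 * (x0 + x2) +
      x4 * (x0 + x2) * (x1 + x4) ≠ 0
    intro e
    apply hdisc
    linear_combination e - (x0 * x2 * x4 + x1 * x2 ^ 2 + 2 * x2 ^ 2 * x4 + x1 * x2 * x4 +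
      x2 * x3 * x4 + 2 * x2 * x4 ^ 2 + x0 * x4 ^ 2) * h2

theorem exists_sig [CharP k 2] (d : PD k K) (i : Fin 5) : ∃ d' : PD k K, IsSig d d' i := by
  have h2 := two_eq_zero k K
  have n0 := d.V_ne i
  have n1 := d.V_ne (i + 1)
  obtain ⟨q1, q2, q3, q4, q5⟩ := d.rels i
  have hy := d.yrel_at i
  refine ⟨⟨![(d.V (i + 1))⁻¹, (d.V i)⁻¹, d.V i * d.V (i + 4),
    d.V (i + 3) / (d.V i * d.V (i + 1)), d.V (i + 1) * d.V (i + 2)],
    d.y / (d.V i * d.V (i + 1)),
    ![d.c i + d.c (i + 2), d.c (i + 1) + d.c (i + 4), d.c (i + 2),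
      d.c (i + 2) + d.c (i + 3) + d.c (i + 4), d.c (i + 4)], ?_, ?_, ?_, ?_⟩,
    rfl, rfl, rfl, rfl, rfl, rfl, fun h => h.sig i⟩
  · intro j
    fin_cases j
    · change (d.V (i + 1))⁻¹ ^ 5 + (d.V i * d.V (i + 4)) ^ 5 *
        (d.V (i + 3) / (d.V i * d.V (i + 1))) ^ 5 = 1
      have : (d.V (i + 1))⁻¹ ^ 5 + (d.V i * d.V (i + 4)) ^ 5 *
        (d.V (i + 3) / (d.V i * d.V (i + 1))) ^ 5 =
        (1 + d.V (i + 3) ^ 5 * d.V (i + 4) ^ 5) / d.V (i + 1) ^ 5 := by
        field_simp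
      rw [this, div_eq_one_iff_eq (pow_ne_zero _ n1), q4]
      linear_combination (1 - d.V (i + 1) ^ 5) * h2
    · change (d.V i)⁻¹ ^ 5 + (d.V (i + 3) / (d.V i * d.V (i + 1))) ^ 5 *
        (d.V (i + 1) * d.V (i + 2)) ^ 5 = 1
      have : (d.V i)⁻¹ ^ 5 + (d.V (i + 3) / (d.V i * d.V (i + 1))) ^ 5 *
        (d.V (i + 1) * d.V (i + 2)) ^ 5 =
        (1 + d.V (i + 2) ^ 5 * d.V (i + 3) ^ 5) / d.V i ^ 5 := by
        field_simp
      rw [this, div_eq_one_iff_eq (pow_ne_zero _ n0), q3]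
      linear_combination (1 - d.V i ^ 5) * h2
    · change (d.V i * d.V (i + 4)) ^ 5 + (d.V (i + 1) * d.V (i + 2)) ^ 5 *
        (d.V (i + 1))⁻¹ ^ 5 = 1
      have : (d.V i * d.V (i + 4)) ^ 5 + (d.V (i + 1) * d.V (i + 2)) ^ 5 *
        (d.V (i + 1))⁻¹ ^ 5 = d.V i ^ 5 * d.V (i + 4) ^ 5 + d.V (i + 2) ^ 5 := by
        field_simp
      rw [this]
      linear_combination q5
    · change (d.V (i + 3) / (d.V i * d.V (i + 1))) ^ 5 + (d.V (i + 1))⁻¹ ^ 5 *
        (d.V i)⁻¹ ^ 5 = 1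
      have : (d.V (i + 3) / (d.V i * d.V (i + 1))) ^ 5 + (d.V (i + 1))⁻¹ ^ 5 *
        (d.V i)⁻¹ ^ 5 = (d.V (i + 3) ^ 5 + 1) / (d.V i ^ 5 * d.V (i + 1) ^ 5) := by
        field_simp
      rw [this, div_eq_one_iff_eq (mul_ne_zero (pow_ne_zero _ n0) (pow_ne_zero _ n1)), q1]
      linear_combination (d.V (i + 3) ^ 5) * h2
    · change (d.V (i + 1) * d.V (i + 2)) ^ 5 + (d.V i)⁻¹ ^ 5 *
        (d.V i * d.V (i + 4)) ^ 5 = 1
      have : (d.V (i + 1) * d.V (i + 2)) ^ 5 + (d.V i)⁻¹ ^ 5 *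
        (d.V i * d.V (i + 4)) ^ 5 = d.V (i + 1) ^ 5 * d.V (i + 2) ^ 5 + d.V (i + 4) ^ 5 := by
        field_simp
      rw [this]
      linear_combination q2
  · rw [Fin.sum_univ_five]
    change (d.y / (d.V i * d.V (i + 1))) ^ 5 =
      algebraMap k K (d.c i + d.c (i + 2)) * (d.V (i + 1))⁻¹ ^ 5 +
      algebraMap k K (d.c (i + 1) + d.c (i + 4)) * (d.V i)⁻¹ ^ 5 +
      algebraMap k K (d.c (i + 2)) * (d.V i * d.V (i + 4)) ^ 5 +
      algebraMap k K (d.c (i + 2) + d.c (i + 3) + d.c (i + 4)) *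
        (d.V (i + 3) / (d.V i * d.V (i + 1))) ^ 5 +
      algebraMap k K (d.c (i + 4)) * (d.V (i + 1) * d.V (i + 2)) ^ 5
    simp only [map_add]
    rw [div_pow, div_eq_iff (pow_ne_zero _ (mul_ne_zero n0 n1)), hy]
    generalize algebraMap k K (d.c i) = c0
    generalize algebraMap k K (d.c (i + 1)) = c1
    generalize algebraMap k K (d.c (i + 2)) = c2
    generalize algebraMap k K (d.c (i + 3)) = c3
    generalize algebraMap k K (d.c (i + 4)) = c4
    have e1 : ((c0 + c2) * (d.V (i + 1))⁻¹ ^ 5 + (c1 + c4) * (d.V i)⁻¹ ^ 5 +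
        c2 * (d.V i * d.V (i + 4)) ^ 5 +
        (c2 + c3 + c4) * (d.V (i + 3) / (d.V i * d.V (i + 1))) ^ 5 +
        c4 * (d.V (i + 1) * d.V (i + 2)) ^ 5) * (d.V i * d.V (i + 1)) ^ 5 =
        (c0 + c2) * d.V i ^ 5 + (c1 + c4) * d.V (i + 1) ^ 5 +
        c2 * (d.V i ^ 5 * d.V (i + 1) ^ 5 * (d.V (i + 4) ^ 5 * d.V i ^ 5)) +
        (c2 + c3 + c4) * d.V (i + 3) ^ 5 +
        c4 * (d.V i ^ 5 * d.V (i + 1) ^ 5 * (d.V (i + 1) ^ 5 * d.V (i + 2) ^ 5)) := by
      field_simp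
    rw [e1, q1, q5, q2]
    generalize d.V i ^ 5 = x0 at *
    generalize d.V (i + 1) ^ 5 = x1 at *
    generalize d.V (i + 2) ^ 5 = x2 at *
    generalize d.V (i + 3) ^ 5 = x3 at *
    generalize d.V (i + 4) ^ 5 = x4 at *
    linear_combination -c2 * q3 - c4 * q4 - (c2 * (1 - x2) + c4 * (1 - x4)) * h2
  · set A := Algebra.adjoin k (Set.range ![(d.V (i + 1))⁻¹, (d.V i)⁻¹]) with hA
    have m0 : (d.V (i + 1))⁻¹ ∈ A := Algebra.subset_adjoin ⟨0, rfl⟩
    have m1 : (d.V i)⁻¹ ∈ A := Algebra.subset_adjoin ⟨1, rfl⟩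
    haveI : Algebra.IsAlgebraic A K := by
      apply d.isAlg_adj A i
      · rw [← IsAlgebraic.inv_iff]
        exact isAlgebraic_algebraMap (⟨_, m1⟩ : A)
      · rw [← IsAlgebraic.inv_iff]
        exact isAlgebraic_algebraMap (⟨_, m0⟩ : A)
    have h := Algebra.IsAlgebraic.isTranscendenceBasis_of_lift_le_trdeg_of_finite k
      ![(d.V (i + 1))⁻¹, (d.V i)⁻¹] (by
        rw [d.trdeg_K, Cardinal.mk_fin]
        simp)
    exact h.1
  · rw [eq_top_iff, ← d.gen]
    set F := IntermediateField.adjoin k (insert (d.y / (d.V i * d.V (i + 1)))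
      (Set.range ![(d.V (i + 1))⁻¹, (d.V i)⁻¹, d.V i * d.V (i + 4),
      d.V (i + 3) / (d.V i * d.V (i + 1)), d.V (i + 1) * d.V (i + 2)])) with hF
    have hsub := IntermediateField.subset_adjoin k (insert (d.y / (d.V i * d.V (i + 1)))
      (Set.range ![(d.V (i + 1))⁻¹, (d.V i)⁻¹, d.V i * d.V (i + 4),
      d.V (i + 3) / (d.V i * d.V (i + 1)), d.V (i + 1) * d.V (i + 2)]))
    rw [← hF] at hsub
    have my : d.y / (d.V i * d.V (i + 1)) ∈ F := hsub (Or.inl rfl)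
    have m0 : (d.V (i + 1))⁻¹ ∈ F := hsub (Or.inr ⟨0, rfl⟩)
    have m1 : (d.V i)⁻¹ ∈ F := hsub (Or.inr ⟨1, rfl⟩)
    have m2 : d.V i * d.V (i + 4) ∈ F := hsub (Or.inr ⟨2, rfl⟩)
    have m3 : d.V (i + 3) / (d.V i * d.V (i + 1)) ∈ F := hsub (Or.inr ⟨3, rfl⟩)
    have m4 : d.V (i + 1) * d.V (i + 2) ∈ F := hsub (Or.inr ⟨4, rfl⟩)
    have k0 : d.V i ∈ F := by
      have := inv_mem m1
      rwa [inv_inv] at this
    have k1 : d.V (i + 1) ∈ F := by
      have := inv_mem m0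
      rwa [inv_inv] at this
    have k2 : d.V (i + 2) ∈ F := by
      have := mul_mem m0 m4
      rwa [← mul_assoc, inv_mul_cancel₀ n1, one_mul] at this
    have k3 : d.V (i + 3) ∈ F := by
      have := mul_mem m3 (mul_mem k0 k1)
      rwa [div_mul_cancel₀ _ (mul_ne_zero n0 n1)] at this
    have k4 : d.V (i + 4) ∈ F := by
      have := mul_mem m1 m2
      rwa [← mul_assoc, inv_mul_cancel₀ n0, one_mul] at this
    have ky : d.y ∈ F := by
      have := mul_mem my (mul_mem k0 k1)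
      rwa [div_mul_cancel₀ _ (mul_ne_zero n0 n1)] at this
    rw [IntermediateField.adjoin_le_iff]
    rintro x (rfl | ⟨j, rfl⟩)
    · exact ky
    · rcases ix_cases i j with rfl | rfl | rfl | rfl | rfl
      · exact k0
      · exact k1
      · exact k2
      · exact k3
      · exact k4

theorem PD.V_mem_O (d : PD k K) (i : Fin 5) : d.V i ∈ d.O :=
  Algebra.subset_adjoin (Or.inr ⟨i, rfl⟩)

theorem PD.y_mem_O (d : PD k K) : d.y ∈ d.O := Algebra.subset_adjoin (Or.inl rfl)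

theorem PD.Eo_le_O (d : PD k K) : d.Eo ≤ d.O := by
  unfold PD.Eo
  rw [Algebra.adjoin_le_iff]
  rintro x (rfl | ⟨i, rfl⟩)
  · exact pow_mem d.y_mem_O 2
  · exact d.V_mem_O i

theorem PD.finiteType_O (d : PD k K) : Algebra.FiniteType k d.O := by
  classical
  rw [← Subalgebra.fg_iff_finiteType]
  have h : d.O = Algebra.adjoin k (((insert d.y (Finset.univ.image d.V) : Finset K)) : Set K) := by
    unfold PD.O
    congr 1
    simp
  rw [h]
  exact Subalgebra.fg_adjoin_finset _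

theorem PD.isFractionRing_O (d : PD k K) : IsFractionRing d.O K := by
  refine IsFractionRing.of_field d.O K fun z => ?_
  have hz : z ∈ IntermediateField.adjoin k (insert d.y (Set.range d.V)) := by
    rw [d.gen]
    exact IntermediateField.mem_top
  rw [IntermediateField.mem_adjoin_iff_div] at hz
  obtain ⟨r, hr, s, hs, e⟩ := hz
  exact ⟨⟨r, hr⟩, ⟨s, hs⟩, e⟩

theorem PD.trdeg_O (d : PD k K) : Algebra.trdeg k d.O = 2 := by
  haveI : Algebra.IsAlgebraic d.O K := d.isAlg_adj d.O 0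
    (isAlgebraic_algebraMap (⟨_, d.V_mem_O 0⟩ : d.O))
    (isAlgebraic_algebraMap (⟨_, d.V_mem_O (0 + 1)⟩ : d.O))
  have h := _root_.trdeg_add_eq k d.O (A := K)
  rw [d.trdeg_K, _root_.trdeg_eq_zero (R := d.O) (A := K), add_zero] at h
  exact h

/-- the elements `V (i+2) V (i+3) V (i+4)` generate the unit ideal -/
theorem PD.span_t (d : PD k K) :
    Ideal.span (Set.range fun i : Fin 5 => (⟨d.V (i + 2), d.V_mem_O _⟩ *
      ⟨d.V (i + 3), d.V_mem_O _⟩ * ⟨d.V (i + 4), d.V_mem_O _⟩ : d.O)) = ⊤ := by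
  by_contra hI
  obtain ⟨M, hM, hle⟩ := Ideal.exists_le_maximal _ hI
  haveI := hM.isPrime
  have h1 : ∀ i : Fin 5, (⟨d.V (i + 2), d.V_mem_O _⟩ : d.O) ∈ M ∨
      (⟨d.V (i + 3), d.V_mem_O _⟩ : d.O) ∈ M ∨ (⟨d.V (i + 4), d.V_mem_O _⟩ : d.O) ∈ M := by
    intro i
    have := hle (Ideal.subset_span ⟨i, rfl⟩)
    rcases hM.isPrime.mem_or_mem this with h | h
    · rcases hM.isPrime.mem_or_mem h with h | h
      · exact Or.inl h
      · exact Or.inr (Or.inl h)
    · exact Or.inr (Or.inr h)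
  have h2 : ∀ i : Fin 5, (⟨d.V i, d.V_mem_O _⟩ : d.O) ∈ M →
      (⟨d.V (i + 2), d.V_mem_O _⟩ : d.O) ∉ M ∧ (⟨d.V (i + 3), d.V_mem_O _⟩ : d.O) ∉ M := by
    intro i hi
    have hr : (⟨d.V i, d.V_mem_O _⟩ : d.O) ^ 5 + (⟨d.V (i + 2), d.V_mem_O _⟩ : d.O) ^ 5 *
        (⟨d.V (i + 3), d.V_mem_O _⟩ : d.O) ^ 5 = 1 := Subtype.ext (d.rel i)
    constructor
    · intro h
      apply (Ideal.ne_top_iff_one M).1 hM.ne_top
      rw [← hr]
      exact M.add_mem (Ideal.pow_mem_of_mem _ hi 5 (by norm_num))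
        (M.mul_mem_right _ (Ideal.pow_mem_of_mem _ h 5 (by norm_num)))
    · intro h
      apply (Ideal.ne_top_iff_one M).1 hM.ne_top
      rw [← hr]
      exact M.add_mem (Ideal.pow_mem_of_mem _ hi 5 (by norm_num))
        (M.mul_mem_left _ (Ideal.pow_mem_of_mem _ h 5 (by norm_num)))
  classical
  have key : ∀ Z : Fin 5 → Bool, (∀ i, Z (i + 2) = true ∨ Z (i + 3) = true ∨ Z (i + 4) = true) →
      (∀ i, Z i = true → Z (i + 2) = false ∧ Z (i + 3) = false) → False := by decide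
  refine key (fun i => decide ((⟨d.V i, d.V_mem_O _⟩ : d.O) ∈ M)) ?_ ?_
  · intro i
    simpa using h1 i
  · intro i hi
    simpa using h2 i (by simpa using hi)

theorem PD.span_t_pow (d : PD k K) (N : ℕ) :
    Ideal.span (Set.range fun i : Fin 5 => (⟨d.V (i + 2), d.V_mem_O _⟩ *
      ⟨d.V (i + 3), d.V_mem_O _⟩ * ⟨d.V (i + 4), d.V_mem_O _⟩ : d.O) ^ N) = ⊤ := by
  have h := Ideal.span_pow_eq_top _ d.span_t N
  rw [← Set.range_comp] at h
  exact h

theorem PD.loc_top (d : PD k K) (N : ℕ) :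
    (1 : K) ∈ Submodule.span d.O
      (Set.range fun i : Fin 5 => (d.V (i + 2) * d.V (i + 3) * d.V (i + 4)) ^ N) := by
  have h := d.span_t_pow N
  have h1 : (1 : d.O) ∈ Ideal.span (Set.range fun i : Fin 5 => (⟨d.V (i + 2), d.V_mem_O _⟩ *
      ⟨d.V (i + 3), d.V_mem_O _⟩ * ⟨d.V (i + 4), d.V_mem_O _⟩ : d.O) ^ N) := by
    rw [h]
    trivial
  have h2 := Submodule.mem_map_of_mem (f := (Algebra.linearMap d.O K)) h1
  rw [Ideal.span, Submodule.map_span, ← Set.range_comp] at h2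
  exact h2

theorem PD.loc (d : PD k K) {x : K}
    (h : ∀ i, ∃ N, (d.V (i + 2) * d.V (i + 3) * d.V (i + 4)) ^ N * x ∈ d.O) : x ∈ d.O := by
  choose N hN using h
  obtain ⟨M, hM⟩ : ∃ M, ∀ i, N i ≤ M := ⟨∑ i, N i, fun i =>
    Finset.single_le_sum (f := N) (fun _ _ => Nat.zero_le _) (Finset.mem_univ i)⟩
  have hx : ∀ i, (d.V (i + 2) * d.V (i + 3) * d.V (i + 4)) ^ M * x ∈ d.O := by
    intro i
    obtain ⟨r, hr⟩ := Nat.exists_eq_add_of_le (hM i)
    rw [hr, pow_add, mul_right_comm]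
    exact mul_mem (hN i) (pow_mem (mul_mem (mul_mem (d.V_mem_O _) (d.V_mem_O _))
      (d.V_mem_O _)) _)
  have key : ∀ z ∈ Submodule.span d.O
      (Set.range fun i : Fin 5 => (d.V (i + 2) * d.V (i + 3) * d.V (i + 4)) ^ M),
      z * x ∈ d.O := by
    intro z hz
    induction hz using Submodule.span_induction with
    | mem z hz =>
      obtain ⟨i, rfl⟩ := hz
      exact hx i
    | zero => rw [zero_mul]; exact d.O.zero_mem
    | add a b _ _ ha hb => rw [add_mul]; exact d.O.add_mem ha hb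
    | smul a z _ hz =>
      have : (a • z) * x = (a : K) * (z * x) := by
        change ((a : K) * z) * x = (a : K) * (z * x)
        ring
      rw [this]
      exact d.O.mul_mem a.2 hz
  simpa using key 1 (d.loc_top M)

end Pool.Agent.helper97.BG
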