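import Pool.Agent.helper97.BG.Defs

/-!
# Families of subspaces, homogeneous primes, prime filtrations: definitions
-/

namespace Pool.Agent.helper97.BG

open Polynomial Filter Module

variable {k K V : Type*} [Field k] [Field K] [Algebra k K] [AddCommGroup V] [Module K V]
  [Module k V] [IsScalarTower k K V]

/-! ### definitions -/

/-- `N` is stable under multiplication by `W`. -/
def Fam (W : Submodule k K) (N : ℕ → Submodule k V) : Prop :=
  ∀ m, ∀ f ∈ W, ∀ v ∈ N m, f • v ∈ N (m + 1)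

/-- Homogeneous prime ideals of `⨁ W ^ m`. -/
structure HPrime (W : Submodule k K) (q : ℕ → Submodule k K) : Prop where
  le : ∀ m, q m ≤ W ^ m
  fam : Fam W q
  one : (1 : K) ∉ q 0
  prime : ∀ m n a b, a ∈ W ^ m → b ∈ W ^ n → a * b ∈ q (m + n) → a ∈ q m ∨ b ∈ q n

/-- `N₁ = N + A x` with `x` in degree `c`, and the prime `q` is the annihilator of `x` modulo
`N`. -/
structure Step (W : Submodule k K) (N N₁ : ℕ → Submodule k V) (q : ℕ → Submodule k K) (c : ℕ)
    (x : V) : Prop where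
  prime : HPrime W q
  mem_q : ∀ m a, a ∈ q m ↔ a ∈ W ^ m ∧ a • x ∈ N (m + c)
  low : ∀ m, m < c → N₁ m = N m
  mem : ∀ m v, v ∈ N₁ (m + c) ↔ ∃ u ∈ N (m + c), ∃ a ∈ W ^ m, v = u + a • x

/-- Prime filtrations. -/
inductive Chain (W : Submodule k K) (N : ℕ → Submodule k V) :
    (ℕ → Submodule k V) → List ((ℕ → Submodule k K) × ℕ) → Prop
  | nil : Chain W N N []
  | cons {N₁ N₂ : ℕ → Submodule k V} {q : ℕ → Submodule k K} {c : ℕ} {x : V}
      {l : List ((ℕ → Submodule k K) × ℕ)} :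
      Chain W N N₁ l → Step W N₁ N₂ q c x → Chain W N N₂ ((q, c) :: l)

/-- `dim (A / q)_m`. -/
noncomputable def hq (W : Submodule k K) (q : ℕ → Submodule k K) (m : ℕ) : ℕ :=
  finrank k ↥(W ^ m) - finrank k (q m)

/-- The hypotheses on the surface. -/
structure Setup (W : Submodule k K) (𝒲 : Finset K) : Prop where
  fin : Module.Finite k W
  one : (1 : K) ∈ W
  gen : IntermediateField.adjoin k (W : Set K) = ⊤
  atlas : IsAtlas W 𝒲
  dim : ∀ w ∈ 𝒲, ∀ p q : Ideal (chart W w), p.IsPrime → q.IsPrime → p ≠ ⊥ → p < q →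
    q.IsMaximal
  dvr : ∀ w ∈ 𝒲, ∀ (p : Ideal (chart W w)) [p.IsPrime], p ≠ ⊥ → ¬ p.IsMaximal →
    IsDiscreteValuationRing (Localization.AtPrime p)

/-- `q` is the homogeneous ideal of a curve; `ord` is the corresponding discrete valuation of `K`
and `lam` is the value of the sections of `O(1)` which do not vanish on the curve. -/
structure CurveVal (W : Submodule k K) (q : ℕ → Submodule k K) (ord : K → ℤ) (lam : ℤ) :
    Prop where
  mul : ∀ x y, x ≠ 0 → y ≠ 0 → ord (x * y) = ord x + ord y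
  nonneg : ∀ (n : ℕ), ∀ a ∈ W ^ n, a ≠ 0 → n * lam ≤ ord a
  mem_iff : ∀ (n : ℕ), ∀ a ∈ W ^ n, a ≠ 0 → (a ∈ q n ↔ n * lam < ord a)
  frac : ∀ x, x ≠ 0 → 0 ≤ ord x → ∃ n, ∃ a ∈ W ^ n, ∃ t ∈ W ^ n, t ∉ q n ∧ x * t = a
  unif : ∃ n : ℕ, ∃ t ∈ q n, t ≠ 0 ∧ ord t = n * lam + 1
  nonirr : ∃ w ∈ W, w ≠ 0 ∧ ord w = lam

/-- `q` is minimal among the nonzero homogeneous primes. -/
def HeightOne (W : Submodule k K) (q : ℕ → Submodule k K) : Prop :=
  ∀ q', HPrime W q' → (∃ m, q' m ≠ ⊥) → (∀ m, q' m ≤ q m) → q' = q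

/-- Alternating maps which are `p`-semilinear, i.e. homogeneous of degree `p` in each
variable. -/
structure IsPAlt (p : ℕ) {s : ℕ} (Φ : (Fin s → V) → K) : Prop where
  add : ∀ (v : Fin s → V) i x y,
    Φ (Function.update v i (x + y)) = Φ (Function.update v i x) + Φ (Function.update v i y)
  smul : ∀ (v : Fin s → V) i (a : K) x,
    Φ (Function.update v i (a • x)) = a ^ p * Φ (Function.update v i x)
  alt : ∀ (v : Fin s → V) i j, i ≠ j → v i = v j → Φ v = 0

end Pool.Agent.helper97.BG
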