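import Mathlib

/-!
# Polarised surfaces and torsion-free sheaves: definitions

A projective variety `S` over a field `k` with function field `K`, embedded in a projective
space (with very ample class `H`), is given by the linear system of its hyperplane sections: a
finite-dimensional `k`-subspace `W` of `K` (after division by one section we may assume
`1 ∈ W`).  Its homogeneous coordinate ring is `⨁ W ^ m`, where `W ^ m` is the span of the
products of `m` elements of `W`; so `S = Proj (⨁ W ^ m)` and the elements of `W ^ m` are the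
sections of `O_S(m)` (all of them for large `m`).
-/

namespace Pool.Agent.helper97.BG

open Polynomial Filter

section surface

variable {k K : Type*} [Field k] [Field K] [Algebra k K]

/-- The coordinate ring of the affine chart `w ≠ 0` of `S = Proj (⨁ W ^ m)`. -/
def chart (W : Submodule k K) (w : K) : Subalgebra k K :=
  Algebra.adjoin k {x | ∃ f ∈ W, x = f / w}

/-- `𝒲` is a finite set of nonzero sections of `O_S(1)` without common zero on `S`: some power
of the irrelevant ideal is contained in the ideal generated by `𝒲`. -/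
structure IsAtlas (W : Submodule k K) (𝒲 : Finset K) : Prop where
  mem : ∀ w ∈ 𝒲, w ∈ W
  ne_zero : ∀ w ∈ 𝒲, w ≠ 0
  cover : ∃ N : ℕ, W ^ (N + 1) ≤ ⨆ w ∈ 𝒲, (W ^ N).map (LinearMap.mulLeft k w)

/-- Over an algebraically closed field `k`: `W` defines an irreducible projective surface, with
function field `K`, which is nonsingular: `K` has transcendence degree two, and the local ring
at each closed point has a maximal ideal generated by two elements. -/
structure IsSmoothSurface (W : Submodule k K) (𝒲 : Finset K) : Prop where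
  finite : Module.Finite k W
  one_mem : (1 : K) ∈ W
  generates : IntermediateField.adjoin k (W : Set K) = ⊤
  trdeg : Algebra.trdeg k K = 2
  atlas : IsAtlas W 𝒲
  regular : ∀ w ∈ 𝒲, ∀ (𝔪 : Ideal (chart W w)) [𝔪.IsMaximal],
    ∃ s t : Localization.AtPrime 𝔪,
      IsLocalRing.maximalIdeal (Localization.AtPrime 𝔪) = Ideal.span {s, t}

/-- `f m = P m` for all large `m`. -/
def HasHilbertPolynomial (f : ℕ → ℕ) (P : ℚ[X]) : Prop :=
  ∀ᶠ m in atTop, (f m : ℚ) = P.eval (m : ℚ)

/-- `S` contains no rational curve: every point of `S` with values in the field `k(t)` is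
constant.  In particular `S` contains no smooth rational curve of self-intersection `-1`. -/
def NoRationalCurve (W : Submodule k K) (𝒲 : Finset K) : Prop :=
  ∀ w ∈ 𝒲, ∀ φ : chart W w →ₐ[k] RatFunc k, ∀ x, φ x ∈ (algebraMap k (RatFunc k)).range

/-- The canonical sheaf of the nonsingular surface `S` is isomorphic to `O_S(κ)`: there is a
rational bivector field `β` whose values `β f h`, for `f`, `h` regular on the chart `w ≠ 0`,
generate `w ^ κ O_S` on this chart; so `df ∧ dh ↦ β f h` is an isomorphism from `ω_S` to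
`O_S(κ)`. -/
def IsCanonicalTwist (W : Submodule k K) (𝒲 : Finset K) (κ : ℕ) : Prop :=
  ∃ β : Derivation k K (Derivation k K K), (∀ f, β f f = 0) ∧
    ∀ w ∈ 𝒲, Submodule.span (chart W w) {x | ∃ f ∈ chart W w, ∃ h ∈ chart W w, x = β f h} =
      Submodule.span (chart W w) {w ^ κ}

end surface

section lift

universe u

variable {k K : Type u} [Field k] [Field K] [Algebra k K] [CharP k 2]

/-- `S` (with its homogeneous coordinate ring) lifts to `W_2(k)`: there is a graded algebra `B`,
flat over the ring `W_2(k)` of Witt vectors of length two, such that the graded rings `B / 2 B`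
and `⨁ W ^ m` are isomorphic over `k`; then `Proj B` is flat over `W_2(k)` and its reduction
modulo `2` is `S`. -/
def LiftsToW2 (W : Submodule k K) : Prop :=
  ∃ (B : Type u) (_ : CommRing B) (_ : Algebra (TruncatedWittVector 2 2 k) B)
    (ℬ : ℕ → Submodule (TruncatedWittVector 2 2 k) B) (_ : GradedAlgebra ℬ)
    (π : B →+* K[X]),
    Module.Flat (TruncatedWittVector 2 2 k) B ∧
    (∀ r : TruncatedWittVector 2 2 k,
      π (algebraMap _ B r) = C (algebraMap k K (r.coeff 0))) ∧
    (∀ m, π '' (ℬ m : Set B) = {x | ∃ f ∈ W ^ m, x = C f * X ^ m}) ∧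
    RingHom.ker π = Ideal.span {2}

end lift

section sheaf

variable {k K V : Type*} [Field k] [Field K] [Algebra k K] [AddCommGroup V] [Module K V]
  [Module k V] [IsScalarTower k K V]

/-- `M` is (the graded module of) a torsion-free coherent sheaf `E` on `S`, with generic fibre
in the `K`-vector space `V`; its sections on the chart `w ≠ 0` are the elements `v` of `V` with
`w ^ m v ∈ M m` for some `m`, and `M m` is the space of sections of `E(m)` for large `m`, up to
replacing `M` by its saturation, which does not change `M m` for large `m`. -/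
structure IsTorsionFreeSheaf (W : Submodule k K) (M : ℕ → Submodule k V) : Prop where
  finite : ∀ m, Module.Finite k (M m)
  smul_mem : ∀ m, ∀ f ∈ W, ∀ v ∈ M m, f • v ∈ M (m + 1)
  coherent : ∃ m₀, ∀ m ≥ m₀, M (m + 1) ≤ Submodule.span k {x | ∃ f ∈ W, ∃ v ∈ M m, x = f • v}

/-- The rank of the sheaf `M`: the dimension of its generic fibre. -/
noncomputable def rank (K : Type*) {V k : Type*} [Field k] [Field K] [AddCommGroup V]
    [Module K V] [Module k V] (M : ℕ → Submodule k V) : ℕ :=
  Module.finrank K (Submodule.span K (⋃ m, (M m : Set V)))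

/-- `M` is slope semistable with respect to `H`: for every nonzero coherent subsheaf `N` the
inequality `μ(N) ≤ μ(M)` holds.  Every coherent subsheaf `F` is covered: take `N m = H⁰(F(m))` for
large `m` and `N m = 0` below.  By the Riemann-Roch theorem `c₁(N) H - rank(N) (K_S H) / 2` is
the coefficient of `m` in the Hilbert polynomial of `N`. -/
def IsSemistable (W : Submodule k K) (M : ℕ → Submodule k V) : Prop :=
  ∀ N : ℕ → Submodule k V, (∀ m, N m ≤ M m) → (∀ m, ∀ f ∈ W, ∀ v ∈ N m, f • v ∈ N (m + 1)) →
    (∃ m, N m ≠ ⊥) → ∀ P Q : ℚ[X], HasHilbertPolynomial (fun m => Module.finrank k (N m)) P →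
    HasHilbertPolynomial (fun m => Module.finrank k (M m)) Q →
    P.coeff 1 * rank K M ≤ Q.coeff 1 * rank K N

/-- The determinant of the sheaf `M` of rank `r` is isomorphic to `O_S(δ)`: there is an
alternating form `D` on the generic fibre whose values on the sections on the chart `w ≠ 0`
generate `w ^ δ O_S` on this chart. -/
def IsDetTwist (W : Submodule k K) (𝒲 : Finset K) (M : ℕ → Submodule k V) (r δ : ℕ) : Prop :=
  ∃ D : V [⋀^Fin r]→ₗ[K] K, ∀ w ∈ 𝒲,
    Submodule.span (chart W w) {x | ∃ v : Fin r → V, (∀ i, ∃ m, w ^ m • v i ∈ M m) ∧ x = D v} =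
      Submodule.span (chart W w) {w ^ δ}

end sheaf

/-! ### Chern numbers

`P` is the Hilbert polynomial of `S`, `K_S = κ H`; `Q` is the Hilbert polynomial of a sheaf `E`
of rank `r` with `c₁(E) = δ H`. -/

/-- `H ^ 2`. -/
noncomputable def Hsq (P : ℚ[X]) : ℚ := 2 * P.coeff 2

/-- `c₁(S)^2 = K_S^2`. -/
noncomputable def c1sq (P : ℚ[X]) (κ : ℕ) : ℚ := κ ^ 2 * Hsq P

/-- `c₂(S)`, by Noether's formula `c₁(S)^2 + c₂(S) = 12 χ(O_S)`. -/
noncomputable def c2 (P : ℚ[X]) (κ : ℕ) : ℚ := 12 * P.coeff 0 - c1sq P κ

/-- `ch₂(E)`, by the Riemann-Roch formula `χ(E) = ch₂(E) - c₁(E) K_S / 2 + r χ(O_S)`. -/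
noncomputable def ch2 (P : ℚ[X]) (κ : ℕ) (Q : ℚ[X]) (r δ : ℕ) : ℚ :=
  Q.coeff 0 + δ * κ * Hsq P / 2 - r * P.coeff 0

/-- `Δ(E) = 2 r c₂(E) - (r - 1) c₁(E)^2 = c₁(E)^2 - 2 r ch₂(E)`. -/
noncomputable def discr (P : ℚ[X]) (κ : ℕ) (Q : ℚ[X]) (r δ : ℕ) : ℚ :=
  δ ^ 2 * Hsq P - 2 * r * ch2 P κ Q r δ

end Pool.Agent.helper97.BG
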