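import Mathlib

/-!
# Comparison of polynomials
-/

namespace Pool.Agent.helper97.BG

open Polynomial Filter

/-- A rational polynomial which is `≤ 0` at all large natural numbers has nonpositive leading
coefficient. -/
theorem leadingCoeff_nonpos {R : ℚ[X]} (h : ∀ᶠ m : ℕ in atTop, R.eval (m : ℚ) ≤ 0) :
    R.leadingCoeff ≤ 0 := by
  by_contra hc
  push Not at hc
  by_cases hd : 0 < R.degree
  · have ht := R.tendsto_atTop_of_leadingCoeff_nonneg hd hc.le
    have ht2 : Tendsto (fun m : ℕ => R.eval (m : ℚ)) atTop atTop :=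
      ht.comp tendsto_natCast_atTop_atTop
    obtain ⟨m, h1, h2⟩ := (h.and (ht2.eventually_gt_atTop 0)).exists
    linarith
  · have hd' := Polynomial.eq_C_of_degree_le_zero (not_lt.1 hd)
    rw [hd'] at h hc
    rw [Polynomial.leadingCoeff_C] at hc
    obtain ⟨m, h1⟩ := h.exists
    rw [eval_C] at h1
    linarith

theorem coeff_le {P R : ℚ[X]} (hdeg : P.natDegree ≤ 2) {s j a : ℕ} {C : ℚ}
    (h1 : ∀ᶠ m : ℕ in atTop, (s : ℚ) * P.eval ((m : ℚ) - a) ≤ R.eval (m : ℚ))
    (h2 : ∀ᶠ m : ℕ in atTop, R.eval (m : ℚ) ≤ s * P.eval (m : ℚ) + j * P.coeff 2 * m + C) :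
    R.coeff 1 ≤ s * P.coeff 1 + j * P.coeff 2 := by
  have hP : P = Polynomial.C (P.coeff 2) * X ^ 2 + Polynomial.C (P.coeff 1) * X +
      Polynomial.C (P.coeff 0) := by
    conv_lhs => rw [P.as_sum_range_C_mul_X_pow' (n := 3) (by omega)]
    rw [Finset.sum_range_succ, Finset.sum_range_succ, Finset.sum_range_one]
    simp only [pow_zero, mul_one, pow_one]
    ring
  generalize P.coeff 2 = p2 at *
  generalize P.coeff 1 = p1 at *
  generalize P.coeff 0 = p0 at *
  -- D = s P + j p2 X + C - R
  set D : ℚ[X] := Polynomial.C (s : ℚ) * P + Polynomial.C (j * p2) * X + Polynomial.C C - R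
    with hD
  have hDe : ∀ x : ℚ, D.eval x = s * P.eval x + j * p2 * x + C - R.eval x := by
    intro x
    rw [hD]
    simp only [eval_add, eval_sub, eval_mul, eval_C, eval_X]
  have hD0 : ∀ᶠ m : ℕ in atTop, (-D).eval (m : ℚ) ≤ 0 := by
    filter_upwards [h2] with m hm
    rw [eval_neg, hDe]
    linarith
  obtain ⟨c1, c0, hc⟩ : ∃ c1 c0 : ℚ, ∀ x : ℚ, (s : ℚ) * P.eval x - s * P.eval (x - a) +
      j * p2 * x + C = c1 * x + c0 := by
    refine ⟨s * (2 * a * p2) + j * p2, s * (p1 * a - p2 * a ^ 2) + C, fun x => ?_⟩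
    rw [hP]
    simp only [eval_add, eval_mul, eval_C, eval_X, eval_pow]
    ring
  have hD1 : ∀ᶠ m : ℕ in atTop,
      (D - Polynomial.C c1 * X - Polynomial.C c0).eval (m : ℚ) ≤ 0 := by
    filter_upwards [h1] with m hm
    rw [eval_sub, eval_sub, hDe, eval_mul, eval_C, eval_X, eval_C]
    have := hc m
    linarith
  have hdegD : D.natDegree ≤ 1 := by
    by_contra hlt
    push Not at hlt
    have l1 := leadingCoeff_nonpos hD0
    have l2 := leadingCoeff_nonpos hD1
    have e : (D - Polynomial.C c1 * X - Polynomial.C c0).leadingCoeff = D.leadingCoeff := by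
      rw [sub_sub]
      apply leadingCoeff_sub_of_degree_lt
      have hd1 : (Polynomial.C c1 * X + Polynomial.C c0).degree ≤ 1 := by compute_degree
      have hd2 : (1 : WithBot ℕ) < D.degree := by
        rw [Polynomial.degree_eq_natDegree (by rintro h; rw [h] at hlt; simp at hlt)]
        exact_mod_cast hlt
      exact lt_of_le_of_lt hd1 hd2
    rw [e] at l2
    rw [leadingCoeff_neg] at l1
    have : D.leadingCoeff = 0 := by linarith
    rw [leadingCoeff_eq_zero] at this
    rw [this] at hlt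
    simp at hlt
  have hc1 : 0 ≤ D.coeff 1 := by
    by_contra hlt
    push Not at hlt
    have hnd : D.natDegree = 1 := by
      apply le_antisymm hdegD
      exact Polynomial.le_natDegree_of_ne_zero hlt.ne
    have l1 := leadingCoeff_nonpos hD0
    rw [leadingCoeff_neg, leadingCoeff, hnd] at l1
    linarith
  have e1 : D.coeff 1 = s * p1 + j * p2 - R.coeff 1 := by
    rw [hD, hP]
    simp [coeff_X, coeff_C, coeff_X_pow]
  rw [e1] at hc1
  linarith

end Pool.Agent.helper97.BG
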