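import Pool.Agent.helper72.BG.LSB
import Pool.Agent.helper37.BG.LSD

/-!
# The slope inequality, with the classification of homogeneous primes inserted
-/

namespace Pool.Agent.helper97.BG

open Polynomial Filter Module

variable {k K V : Type*} [Field k] [Field K] [Algebra k K] [AddCommGroup V] [Module K V]
  [Module k V] [IsScalarTower k K V]

theorem lemS [IsAlgClosed k] {W : Submodule k K} {𝒲 : Finset K} (hS : Setup W 𝒲) {P : ℚ[X]}
    (hP : HasHilbertPolynomial (fun m => finrank k ↥(W ^ m)) P) (hdeg : P.natDegree ≤ 2)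
    {M N : ℕ → Submodule k V} (hM : IsTorsionFreeSheaf W M) (hNM : ∀ m, N m ≤ M m)
    (hN : Fam W N) {s : ℕ} (hs0 : 0 < s) (hs : rank K N = s) {Φ : (Fin s → V) → K}
    (hΦ : IsPAlt 2 Φ) (j : ℕ)
    (hint : ∀ w ∈ 𝒲, ∀ (m : Fin s → ℕ) (v : Fin s → V), (∀ i, v i ∈ N (m i)) →
      Φ v / w ^ (j + 2 * ∑ i, m i) ∈ chart W w)
    (hne : ∃ (m : Fin s → ℕ) (v : Fin s → V), (∀ i, v i ∈ N (m i)) ∧ Φ v ≠ 0) :
    ∃ C : ℚ, ∀ᶠ m : ℕ in atTop,
      (finrank k (N m) : ℚ) ≤ s * P.eval (m : ℚ) + j * P.coeff 2 * m + C :=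
  LSD.lemS_of hS (fun h1 h2 => hprime_cases hS h1 h2) hP hdeg hM hNM hN hs0 hs hΦ j hint hne

end Pool.Agent.helper97.BG
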