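import Pool.Agent.helper97.BG.Basic
import Pool.Agent.helper97.BG.Poly
import Pool.Agent.helper97.BG.Wire
import Pool.Agent.helper1.BG.REG
import Pool.Agent.helper9.BG.CH
import Pool.Agent.helper18.BG.EX
import Pool.Agent.helper18.BG.LIFT
import Pool.Agent.helper22.BG.CNT
import Pool.Agent.helper39.BG.FER
import Pool.Agent.helper52.BG.BR
import Pool.Agent.helper52.BG.PB
import Pool.Agent.helper60.BG.SHF
import Pool.Agent.helper65.BG.COV
import Pool.Agent.helper70.BG.PHI
import Pool.Agent.helper72.BG.DVR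
import Pool.Agent.helper81.BG.DIM
import Pool.Agent.helper90.BG.CAN
import Pool.Agent.helper90.BG.UNR
import Pool.Agent.helper90.BG.DET

/-!
# The counterexample: assembly
-/

namespace Pool.Agent.helper97.BG

open Polynomial Filter Module

universe u

section charts

variable {k K : Type*} [Field k] [Field K] [Algebra k K]

/-- Every element of the atlas is `1` or one of the `w i`, with its chart. -/
theorem PD.atlas_cases (d : PD k K) {w : K} (hw : w ∈ d.atlas) : w = 1 ∨ ∃ i, w = d.w i := by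
  classical
  unfold PD.atlas at hw
  rw [Finset.mem_insert, Finset.mem_image] at hw
  rcases hw with h | ⟨i, _, h⟩
  · exact Or.inl h
  · exact Or.inr ⟨i, h.symm⟩

/-- Every chart is `d'.O` for some pentagon data `d'` -/
theorem PD.chart_eq_O [CharP k 2] (d : PD k K) {w : K} (hw : w ∈ d.atlas) :
    ∃ d' : PD k K, chart d.W w = d'.O ∧ (Adm d.c → Adm d'.c) := by
  rcases d.atlas_cases hw with rfl | ⟨i, rfl⟩
  · exact ⟨d, d.chart_one, id⟩
  · obtain ⟨d', h⟩ := exists_sig d i
    exact ⟨d', h.chart_eq, h.adm⟩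

/-- The full comparison of charts. -/
theorem PD.chart_cases [CharP k 2] [CharP K 2] (d : PD k K) {w : K} (hw : w ∈ d.atlas)
    {B : Derivation k K (Derivation k K K)} (hB : IsBr d B) :
    w ≠ 0 ∧ ∃ (d' : PD k K) (B' : Derivation k K (Derivation k K K)), IsBr d' B' ∧
      chart d.W w = d'.O ∧ (Adm d.c → Adm d'.c) ∧ d.y = w * d'.y ∧
      (∀ f g, B f g = w ^ 3 * B' f g) ∧
      (∀ v : Fr K, (∃ m : ℕ, w ^ m • v ∈ d.M m) ↔ Fr.mk.symm v ∈ d'.Eo) ∧
      (∀ j, ∃ p ∈ d'.O, ∃ j', ∀ f, d.Th B j f = w ^ 3 * (p * d'.Th B' j' f)) := by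
  rcases d.atlas_cases hw with rfl | ⟨i, rfl⟩
  · refine ⟨one_ne_zero, d, B, hB, d.chart_one, id, by simp, by simp, d.sec_one, fun j => ?_⟩
    exact ⟨1, d.O.one_mem, j, by simp⟩
  · obtain ⟨d', h⟩ := exists_sig d i
    obtain ⟨B', hB'⟩ := d'.exists_isBr
    have hw0 : d.w i ≠ 0 := mul_ne_zero (d.V_ne _) (d.V_ne _)
    refine ⟨hw0, d', B', hB', h.chart_eq, h.adm, ?_, hB.sig h hB', h.sec,
      hB.Th_sig h hB'⟩
    rw [h.y]
    exact (mul_div_cancel₀ _ hw0).symm

end charts

section main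

variable {k K : Type*} [Field k] [Field K] [Algebra k K]

theorem PD.finite_W (d : PD k K) : Module.Finite k d.W := by
  have : {n : Fin 5 → ℕ | Lev 1 n}.Finite := by
    refine (Set.Finite.subset (Set.Finite.pi' (t := fun _ : Fin 5 => {x : ℕ | x ≤ 5})
      (fun _ => Set.finite_le_nat 5)) ?_)
    intro n hn i
    have h := lev_sum hn
    exact (Finset.single_le_sum (f := n) (fun i _ => Nat.zero_le _) (Finset.mem_univ i)).trans h
  rw [Module.Finite.iff_fg]
  unfold PD.W
  refine Submodule.fg_span (Set.Finite.insert _ ?_)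
  have h2 : {x | ∃ n, Lev 1 n ∧ x = d.mon n} = d.mon '' {n | Lev 1 n} := by
    ext x
    simp only [Set.mem_setOf_eq, Set.mem_image]
    exact ⟨fun ⟨n, h, e⟩ => ⟨n, h, e.symm⟩, fun ⟨n, h, e⟩ => ⟨n, h, e.symm⟩⟩
  rw [h2]
  exact this.image _

theorem PD.one_mem_W (d : PD k K) : (1 : K) ∈ d.W := by
  refine Submodule.subset_span (Or.inr ⟨0, fun l => by simp, ?_⟩)
  simp [PD.mon]

theorem PD.V_mem_W (d : PD k K) (i : Fin 5) : d.V i ∈ d.W := by
  refine Submodule.subset_span (Or.inr ⟨Pi.single i 1, ?_, ?_⟩)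
  · intro l
    revert i l
    decide
  · unfold PD.mon
    rw [Finset.prod_eq_single i]
    · simp
    · intro j _ hj
      simp [Pi.single_apply, hj]
    · simp

theorem PD.y_mem_W (d : PD k K) : d.y ∈ d.W := Submodule.subset_span (Or.inl rfl)

theorem PD.gen_W (d : PD k K) : IntermediateField.adjoin k (d.W : Set K) = ⊤ := by
  rw [eq_top_iff, ← d.gen]
  apply IntermediateField.adjoin.mono
  intro x hx
  rcases hx with rfl | ⟨i, rfl⟩
  · exact d.y_mem_W
  · exact d.V_mem_W i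

/-- the set-up of the general theory -/
theorem PD.setup [IsAlgClosed k] [CharP k 2] (d : PD k K) (hc : Adm d.c) :
    Setup d.W d.atlas where
  fin := d.finite_W
  one := d.one_mem_W
  gen := d.gen_W
  atlas := d.isAtlas
  dim := by
    intro w hw
    obtain ⟨d', h, -⟩ := d.chart_eq_O hw
    rw [h]
    intro p q hp hq h0 hpq
    haveI := d'.finiteType_O
    exact dim_two d'.trdeg_O p q hp hq h0 hpq
  dvr := by
    intro w hw
    obtain ⟨d', h, ha⟩ := d.chart_eq_O hw
    rw [h]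
    intro p hp h0 hm
    haveI := d'.finiteType_O
    obtain ⟨s, t, f, hf, h⟩ := d'.unr (ha hc) p
    exact dvr_of_unr d'.trdeg_O p h0 hm hf h

theorem PD.isSmoothSurface [IsAlgClosed k] [CharP k 2] (d : PD k K) (hc : Adm d.c) :
    IsSmoothSurface d.W d.atlas where
  finite := d.finite_W
  one_mem := d.one_mem_W
  generates := d.gen_W
  trdeg := d.trdeg_eq
  atlas := d.isAtlas
  regular := by
    intro w hw
    obtain ⟨d', h, ha⟩ := d.chart_eq_O hw
    rw [h]
    intro p hp
    haveI := d'.finiteType_O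
    obtain ⟨s, t, f, hf, h⟩ := d'.unr (ha hc) p
    exact regular_of_unr p hf h

theorem five_ne (k : Type*) [Field k] [CharP k 2] : (5 : k) ≠ 0 := by
  have h2 : (2 : k) = 0 := by exact_mod_cast CharP.cast_eq_zero k 2
  have : (5 : k) = 1 := by linear_combination 2 * h2
  rw [this]
  exact one_ne_zero

theorem PD.noRationalCurve [IsAlgClosed k] [CharP k 2] (d : PD k K) :
    NoRationalCurve d.W d.atlas := by
  intro w hw
  obtain ⟨d', h, -⟩ := d.chart_eq_O hw
  rw [h]
  intro φ x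
  exact d'.const_of_hom (five_ne k) φ x

/-- The Hilbert polynomial of the surface. -/
noncomputable def PW : ℚ[X] := C (3125 / 2) * X ^ 2 - C (21875 / 2) * X + C 21875

/-- The Hilbert polynomial of the sheaf. -/
noncomputable def QM : ℚ[X] := C 6250 * X ^ 2 - C 34375 * X + C 59375

theorem PD.hilbW [IsAlgClosed k] [CharP k 2] (d : PD k K) (hc : Adm d.c) :
    HasHilbertPolynomial (fun m => finrank k ↥(d.W ^ m)) PW := by
  obtain ⟨L₀, hL⟩ := eventually_atTop.1 hcount_eq
  refine eventually_atTop.2 ⟨L₀ + 4, fun m hm => ?_⟩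
  change ((finrank k ↥(d.W ^ m) : ℕ) : ℚ) = _
  rw [d.pow_eq, d.finrank_W (five_ne k) hc.kumCond (by omega)]
  push_cast
  rw [Fin.sum_univ_five]
  have h : ∀ b : ℕ, b ≤ 4 → (hcount (m - b) : ℚ) = 625 * ((m - b - 1) * (m - b - 2)) / 2 := by
    intro b hb
    rw [hL (m - b) (by omega), Nat.cast_sub (by omega)]
  have h0 := h 0 (by omega)
  have h1 := h 1 (by omega)
  have h2 := h 2 (by omega)
  have h3 := h 3 (by omega)
  have h4 := h 4 (by omega)
  simp only [Fin.val_zero, Fin.val_one, Fin.val_two]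
  have e3 : ((3 : Fin 5) : ℕ) = 3 := rfl
  have e4 : ((4 : Fin 5) : ℕ) = 4 := rfl
  rw [e3, e4, h0, h1, h2, h3, h4]
  simp only [PW, eval_add, eval_sub, eval_mul, eval_C, eval_pow, eval_X]
  push_cast
  ring

theorem PD.hilbM [IsAlgClosed k] [CharP k 2] [CharP K 2] (d : PD k K) (hc : Adm d.c) :
    HasHilbertPolynomial (fun m => finrank k (d.M m)) QM := by
  obtain ⟨L₀, hL⟩ := eventually_atTop.1 hcount_eq
  refine eventually_atTop.2 ⟨L₀ + 4, fun m hm => ?_⟩
  change ((finrank k ↥(d.M m) : ℕ) : ℚ) = _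
  rw [d.finrank_M hc.kumCond (by omega)]
  push_cast
  rw [Fin.sum_univ_five]
  have h : ∀ b : ℕ, b ≤ 4 → (hcount (2 * (m - b)) : ℚ) =
      625 * ((2 * (m - b) - 1) * (2 * (m - b) - 2)) / 2 := by
    intro b hb
    rw [hL (2 * (m - b)) (by omega)]
    push_cast [Nat.cast_sub (show b ≤ m by omega)]
    ring
  have h0 := h 0 (by omega)
  have h1 := h 1 (by omega)
  have h2 := h 2 (by omega)
  have h3 := h 3 (by omega)
  have h4 := h 4 (by omega)
  simp only [Fin.val_zero, Fin.val_one, Fin.val_two]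
  have e3 : ((3 : Fin 5) : ℕ) = 3 := rfl
  have e4 : ((4 : Fin 5) : ℕ) = 4 := rfl
  rw [e3, e4, h0, h1, h2, h3, h4]
  simp only [QM, eval_add, eval_sub, eval_mul, eval_C, eval_pow, eval_X]
  push_cast
  ring

theorem span_eq_of_mem {A : Subalgebra k K} {S : Set K} {u : K} (hu : u ≠ 0)
    (h1 : ∀ x ∈ S, x / u ∈ A) (h2 : (1 : K) ∈ Submodule.span A {z | ∃ x ∈ S, z = x / u}) :
    Submodule.span A S = Submodule.span A {u} := by
  apply le_antisymm
  · rw [Submodule.span_le]
    intro x hx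
    rw [SetLike.mem_coe, Submodule.mem_span_singleton]
    refine ⟨⟨x / u, h1 x hx⟩, ?_⟩
    change x / u * u = x
    field_simp
  · rw [Submodule.span_le]
    intro x hx
    rw [Set.mem_singleton_iff] at hx
    subst hx
    rw [SetLike.mem_coe]
    have key : ∀ z ∈ Submodule.span A {z | ∃ y ∈ S, z = y / x},
        z * x ∈ Submodule.span A S := by
      intro z hz
      induction hz using Submodule.span_induction with
      | mem z hz =>
        obtain ⟨y, hy, rfl⟩ := hz
        rw [div_mul_cancel₀ _ hu]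
        exact Submodule.subset_span hy
      | zero => rw [zero_mul]; exact Submodule.zero_mem _
      | add a b _ _ ha hb => rw [add_mul]; exact Submodule.add_mem _ ha hb
      | smul a z _ hz =>
        have : (a • z) * x = a • (z * x) := by
          change ((a : K) * z) * x = (a : K) * (z * x)
          ring
        rw [this]
        exact Submodule.smul_mem _ _ hz
    simpa using key 1 h2

theorem PD.isCanonicalTwist [IsAlgClosed k] [CharP k 2] [CharP K 2] (d : PD k K)
    (hc : Adm d.c) : IsCanonicalTwist d.W d.atlas 7 := by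
  obtain ⟨B, hB⟩ := d.exists_isBr
  refine ⟨d.y ^ 4 • B, fun f => ?_, fun w hw => ?_⟩
  · change d.y ^ 4 • B f f = 0
    rw [hB.alt, smul_zero]
  obtain ⟨hw0, d', B', hB', hch, ha, hy, hs, -, -⟩ := d.chart_cases hw hB
  have e1 : ∀ f h, (d.y ^ 4 • B) f h / w ^ 7 = d'.y ^ 4 * B' f h := by
    intro f h
    change d.y ^ 4 * B f h / w ^ 7 = _
    rw [hs, hy]
    field_simp
  rw [hch]
  apply span_eq_of_mem (pow_ne_zero _ hw0)
  · rintro x ⟨f, hf, h, hh, rfl⟩
    rw [e1]
    exact d'.can_mem hB' hf hh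
  · have h := d'.can_span (ha hc) hB'
    refine Submodule.span_mono ?_ h
    rintro x ⟨f, hf, h, hh, rfl⟩
    exact ⟨_, ⟨f, hf, h, hh, rfl⟩, (e1 f h).symm⟩

theorem PD.isDetTwist [IsAlgClosed k] [CharP k 2] [CharP K 2] (d : PD k K) :
    IsDetTwist d.W d.atlas d.M 4 3 := by
  obtain ⟨B, hB⟩ := d.exists_isBr
  obtain ⟨D, hD⟩ := d.exists_det hB
  refine ⟨D, fun w hw => ?_⟩
  obtain ⟨hw0, d', B', hB', hch, ha, hy, hs, hsec, -⟩ := d.chart_cases hw hB
  have hw3 : w ^ 3 ≠ 0 := pow_ne_zero _ hw0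
  have hD' : ∀ f h : K, ((w ^ 3)⁻¹ • D) ![Fr.mk 1, Fr.mk f, Fr.mk h, Fr.mk (f * h)] =
      B' f h := by
    intro f h
    change (w ^ 3)⁻¹ * D _ = _
    rw [hD, hs]
    field_simp
  have e1 : ∀ v, D v / w ^ 3 = ((w ^ 3)⁻¹ • D) v := by
    intro v
    change _ = (w ^ 3)⁻¹ * D v
    rw [div_eq_inv_mul]
  rw [hch]
  apply span_eq_of_mem hw3
  · rintro x ⟨v, hv, rfl⟩
    rw [e1]
    exact d'.det_mem hB' _ hD' v (fun i => (hsec _).1 (hv i))
  · have h := d'.det_span hB' _ hD'
    refine Submodule.span_mono ?_ h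
    rintro x ⟨v, hv, rfl⟩
    exact ⟨_, ⟨v, fun i => (hsec _).2 (hv i), rfl⟩, (e1 v).symm⟩

end main

section semistable

variable {k K : Type*} [Field k] [Field K] [Algebra k K]

theorem PW_coeff1 : PW.coeff 1 = -21875 / 2 := by
  simp [PW, coeff_X, coeff_C]
  norm_num

theorem PW_coeff2 : PW.coeff 2 = 3125 / 2 := by
  simp [PW, coeff_X, coeff_C]

theorem PW_coeff0 : PW.coeff 0 = 21875 := by
  simp [PW, coeff_X, coeff_C]

theorem QM_coeff1 : QM.coeff 1 = -34375 := by
  simp [QM, coeff_X, coeff_C]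

theorem QM_coeff2 : QM.coeff 2 = 6250 := by
  simp [QM, coeff_X, coeff_C]

theorem QM_coeff0 : QM.coeff 0 = 59375 := by
  simp [QM, coeff_X, coeff_C]

theorem PW_natDegree : PW.natDegree ≤ 2 := by
  unfold PW
  compute_degree

theorem hilb_unique {f : ℕ → ℕ} {P Q : ℚ[X]} (hP : HasHilbertPolynomial f P)
    (hQ : HasHilbertPolynomial f Q) : P = Q := by
  have h : ∀ᶠ m : ℕ in atTop, P.eval (m : ℚ) = Q.eval (m : ℚ) := by
    filter_upwards [hP, hQ] with m h1 h2
    rw [← h1, ← h2]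
  obtain ⟨N, hN⟩ := eventually_atTop.1 h
  apply Polynomial.eq_of_infinite_eval_eq
  refine Set.Infinite.mono (s := (fun m : ℕ => (m : ℚ)) '' Set.Ici N) ?_ ?_
  · rintro _ ⟨m, hm, rfl⟩
    exact hN m hm
  · exact (Set.Ici_infinite N).image (Nat.cast_injective.injOn)

/-- Nonvanishing: a spanning set of rank `s` contains `s` independent vectors. -/
theorem exists_indep {K V : Type*} [Field K] [AddCommGroup V] [Module K V] {S : Set V} {s : ℕ}
    (hs : finrank K (Submodule.span K S) = s) (hs0 : 0 < s) :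
    ∃ v : Fin s → V, (∀ i, v i ∈ S) ∧ LinearIndependent K v := by
  haveI : FiniteDimensional K (Submodule.span K S) :=
    Module.finite_of_finrank_pos (by omega)
  obtain ⟨b, hbS, hb, hli⟩ := exists_linearIndependent K S
  have hfin : b.Finite := by
    haveI : FiniteDimensional K (Submodule.span K b) := by rw [hb]; infer_instance
    have h2 : LinearIndependent K
        (fun x : b => (⟨x, Submodule.subset_span x.2⟩ : Submodule.span K b)) := by
      apply LinearIndependent.of_comp (Submodule.subtype _)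
      exact hli
    exact Set.finite_coe_iff.1 (h2.finite_of_isNoetherian)
  haveI := hfin.fintype
  have hcard : Fintype.card b = s := by
    rw [← hs, ← hb, finrank_span_set_eq_card hli, Set.toFinset_card]
  let e := (Fintype.equivFinOfCardEq hcard).symm
  exact ⟨fun i => e i, fun i => hbS (e i).2, hli.comp e e.injective⟩

theorem PD.isSemistable [IsAlgClosed k] [CharP k 2] [CharP K 2] (d : PD k K)
    (hc : Adm d.c) : IsSemistable d.W d.M := by
  intro N hNM hN hne PN Q hPN hQ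
  have hQ' : Q = QM := hilb_unique hQ (d.hilbM hc)
  subst hQ'
  have hMs := d.isTorsionFreeSheaf
  have hS := d.setup hc
  haveI := hS.fin
  have hfinN : ∀ m, Module.Finite k (N m) := by
    intro m
    haveI := hMs.finite m
    exact Submodule.finiteDimensional_of_le (hNM m)
  have hW := d.hilbW hc
  obtain ⟨B, hB⟩ := d.exists_isBr
  rw [d.rank_M]
  -- the rank of N
  have hrk4 : rank K N ≤ 4 := by
    rw [← d.rank_M]
    unfold rank
    haveI : FiniteDimensional K (Submodule.span K (⋃ m, (d.M m : Set (Fr K)))) :=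
      Module.finite_of_finrank_pos (by
        have := d.rank_M
        unfold rank at this
        omega)
    apply Submodule.finrank_mono
    apply Submodule.span_mono
    exact Set.iUnion_mono (fun m => hNM m)
  have hfs : FiniteDimensional K (Submodule.span K (⋃ m, (N m : Set (Fr K)))) := by
    haveI : FiniteDimensional K (Submodule.span K (⋃ m, (d.M m : Set (Fr K)))) :=
      Module.finite_of_finrank_pos (by
        have := d.rank_M
        unfold rank at this
        omega)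
    exact Submodule.finiteDimensional_of_le
      (Submodule.span_mono (Set.iUnion_mono (fun m => hNM m)))
  have hrk0 : 0 < rank K N := by
    obtain ⟨m, hm⟩ := hne
    obtain ⟨v, hv, hv0⟩ := (Submodule.ne_bot_iff _).1 hm
    unfold rank
    rw [Module.finrank_pos_iff_exists_ne_zero]
    exact ⟨⟨v, Submodule.subset_span (Set.mem_iUnion.2 ⟨m, hv⟩)⟩, by
      simpa [Subtype.ext_iff] using hv0⟩
  -- key inequality
  have key : ∀ (s j : ℕ) (hs0 : 0 < s), rank K N = s → ∀ Φ : (Fin s → Fr K) → K, IsPAlt 2 Φ →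
      (∀ w ∈ d.atlas, ∀ (m : Fin s → ℕ) (v : Fin s → Fr K), (∀ i, v i ∈ N (m i)) →
        Φ v / w ^ (j + 2 * ∑ i, m i) ∈ chart d.W w) →
      (∃ v : Fin s → Fr K, (∀ i, v i ∈ ⋃ m, (N m : Set (Fr K))) ∧ Φ v ≠ 0) →
      PN.coeff 1 ≤ s * PW.coeff 1 + j * PW.coeff 2 := by
    intro s j hs0 hs Φ hΦ hint hnv
    have hne' : ∃ (m : Fin s → ℕ) (v : Fin s → Fr K), (∀ i, v i ∈ N (m i)) ∧ Φ v ≠ 0 := by
      obtain ⟨v, hv, h0⟩ := hnv
      simp only [Set.mem_iUnion, SetLike.mem_coe] at hv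
      choose m hm using hv
      exact ⟨m, v, hm, h0⟩
    obtain ⟨C, hC⟩ := lemS hS hW PW_natDegree hMs hNM hN hs0 hs hΦ j hint hne'
    obtain ⟨a, ha⟩ := lemLower hS.one hW hfinN hN hs
    apply coeff_le PW_natDegree (a := a) (C := C)
    · filter_upwards [ha, hPN] with m h1 h2
      rw [← h2]
      exact h1
    · filter_upwards [hC, hPN] with m h1 h2
      rw [← h2]
      exact h1
  -- integrality on charts
  have hsect : ∀ (w : K) (hw : w ≠ 0) (d' : PD k K)
      (hsec : ∀ v : Fr K, (∃ m : ℕ, w ^ m • v ∈ d.M m) ↔ Fr.mk.symm v ∈ d'.Eo)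
      (m : ℕ) (v : Fr K), v ∈ N m → Fr.mk.symm v / w ^ (2 * m) ∈ d'.Eo := by
    intro w hw d' hsec m v hv
    have h1 : w ^ m • ((w ^ m)⁻¹ • v) ∈ d.M m := by
      rw [smul_smul, mul_inv_cancel₀ (pow_ne_zero _ hw), one_smul]
      exact hNM m hv
    have h2 := (hsec _).1 ⟨m, h1⟩
    have h3 : Fr.mk.symm ((w ^ m)⁻¹ • v) = Fr.mk.symm v / w ^ (2 * m) := by
      change ((w ^ m)⁻¹) ^ 2 * Fr.mk.symm v = _
      rw [inv_pow, ← pow_mul, mul_comm m 2, div_eq_inv_mul]
    rwa [h3] at h2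
  have hEoO : ∀ d' : PD k K, ∀ x ∈ d'.Eo, x ∈ d'.O := fun d' x hx => d'.Eo_le_O hx
  have hsq : ∀ (D : Derivation k K K) (u x : K), D (u ^ 2 * x) = u ^ 2 * D x := by
    intro D u x
    rw [D.leibniz, D.leibniz_pow, smul_eq_mul, smul_eq_mul]
    have h2 : ((2 : ℕ) : K) = 0 := CharP.cast_eq_zero K 2
    simp only [smul_eq_mul, nsmul_eq_mul, h2, zero_mul, mul_zero, add_zero]
  have hdiv : ∀ (D : Derivation k K K) (u x : K) (m : ℕ), D (x / u ^ (2 * m)) =
      D x / u ^ (2 * m) := by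
    intro D u x m
    have h1 : x / u ^ (2 * m) = ((u ^ m)⁻¹) ^ 2 * x := by
      rw [inv_pow, ← pow_mul, mul_comm m 2, div_eq_inv_mul]
    rw [h1, hsq, inv_pow, ← pow_mul, mul_comm m 2, div_eq_inv_mul]
  obtain hr | hr | hr | hr : rank K N = 1 ∨ rank K N = 2 ∨ rank K N = 3 ∨ rank K N = 4 := by
    omega
  · -- rank one
    obtain ⟨v₀, hv₀, hli₀⟩ := exists_indep (K := K) (V := Fr K)
      (S := ⋃ m, (N m : Set (Fr K))) hr one_pos
    have h := key 1 0 one_pos hr _ phi1_alt ?_ ⟨v₀, hv₀, ?_⟩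
    · rw [PW_coeff1, PW_coeff2] at h
      rw [QM_coeff1, hr]
      push_cast at h ⊢
      linarith
    · intro w hw m v hv
      obtain ⟨hw0, d', B', hB', hch, ha, hy, hs, hsec, -⟩ := d.chart_cases hw hB
      rw [hch, Fin.sum_univ_one]
      have := hsect w hw0 d' hsec _ _ (hv 0)
      rw [zero_add]
      exact hEoO d' _ this
    · intro h0
      apply hli₀.ne_zero 0
      exact (AddEquiv.map_eq_zero_iff Fr.mk.symm).1 h0
  · -- rank two
    obtain ⟨v₀, hv₀, hli₀⟩ := exists_indep (K := K) (V := Fr K)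
      (S := ⋃ m, (N m : Set (Fr K))) hr two_pos
    obtain ⟨j, hj⟩ : ∃ j, Fr.mk.symm (v₀ 0) * d.Th B j (Fr.mk.symm (v₀ 1)) +
        Fr.mk.symm (v₀ 1) * d.Th B j (Fr.mk.symm (v₀ 0)) ≠ 0 := by
      apply hB.phi2_ne
      convert hli₀ using 1
      ext i
      fin_cases i <;> simp
    have h := key 2 3 two_pos hr _ (phi2_alt (d.Th B j)) ?_ ⟨v₀, hv₀, hj⟩
    · rw [PW_coeff1, PW_coeff2] at h
      rw [QM_coeff1, hr]
      push_cast at h ⊢
      linarith
    · intro w hw m v hv
      obtain ⟨hw0, d', B', hB', hch, ha, hy, hs, hsec, hth⟩ := d.chart_cases hw hB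
      obtain ⟨p, hp, j', hj'⟩ := hth j
      rw [hch, Fin.sum_univ_two]
      have h0 := hsect w hw0 d' hsec _ _ (hv 0)
      have h1 := hsect w hw0 d' hsec _ _ (hv 1)
      have t0 := hB'.Th_mem j' h0
      have t1 := hB'.Th_mem j' h1
      rw [hdiv] at t0 t1
      have e : (Fr.mk.symm (v 0) * d.Th B j (Fr.mk.symm (v 1)) +
          Fr.mk.symm (v 1) * d.Th B j (Fr.mk.symm (v 0))) / w ^ (3 + 2 * (m 0 + m 1)) =
          p * ((Fr.mk.symm (v 0) / w ^ (2 * m 0)) *
            (d'.Th B' j' (Fr.mk.symm (v 1)) / w ^ (2 * m 1)) +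
          (Fr.mk.symm (v 1) / w ^ (2 * m 1)) *
            (d'.Th B' j' (Fr.mk.symm (v 0)) / w ^ (2 * m 0))) := by
        rw [hj', hj', pow_add, mul_add, pow_add]
        field_simp
      rw [e]
      exact mul_mem hp (add_mem (mul_mem (hEoO d' _ h0) t1) (mul_mem (hEoO d' _ h1) t0))
  · -- rank three
    obtain ⟨v₀, hv₀, hli₀⟩ := exists_indep (K := K) (V := Fr K)
      (S := ⋃ m, (N m : Set (Fr K))) hr (by norm_num)
    have hne3 : Fr.mk.symm (v₀ 0) * B (Fr.mk.symm (v₀ 1)) (Fr.mk.symm (v₀ 2)) +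
        Fr.mk.symm (v₀ 1) * B (Fr.mk.symm (v₀ 2)) (Fr.mk.symm (v₀ 0)) +
        Fr.mk.symm (v₀ 2) * B (Fr.mk.symm (v₀ 0)) (Fr.mk.symm (v₀ 1)) ≠ 0 := by
      apply hB.phi3_ne
      convert hli₀ using 1
      ext i
      fin_cases i <;> simp
    have h := key 3 3 (by norm_num) hr _ (phi3_alt B hB.alt) ?_ ⟨v₀, hv₀, hne3⟩
    · rw [PW_coeff1, PW_coeff2] at h
      rw [QM_coeff1, hr]
      push_cast at h ⊢
      linarith
    · intro w hw m v hv
      obtain ⟨hw0, d', B', hB', hch, ha, hy, hs, hsec, hth⟩ := d.chart_cases hw hB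
      rw [hch, Fin.sum_univ_three]
      have h0 := hsect w hw0 d' hsec _ _ (hv 0)
      have h1 := hsect w hw0 d' hsec _ _ (hv 1)
      have h2 := hsect w hw0 d' hsec _ _ (hv 2)
      have b12 := hB'.mem_of_Eo h1 h2
      have b20 := hB'.mem_of_Eo h2 h0
      have b01 := hB'.mem_of_Eo h0 h1
      have hanti : ∀ x z : K, B' x z = - B' z x := by
        intro x z
        have h := hB'.alt (x + z)
        rw [map_add] at h
        have e : (B' (x + z)) x + (B' (x + z)) z = B' x x + B' z x + (B' x z + B' z z) := by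
          rw [map_add B' x z]
          rfl
        rw [e, hB'.alt, hB'.alt] at h
        linear_combination h
      have hBd : ∀ (x z : K) (m m' : ℕ), B' (x / w ^ (2 * m)) (z / w ^ (2 * m')) =
          B' x z / (w ^ (2 * m) * w ^ (2 * m')) := by
        intro x z m m'
        rw [hdiv, hanti, hdiv, hanti z x]
        rw [neg_div, neg_div, neg_div, neg_neg, div_div]
      rw [hBd] at b12 b20 b01
      have e : (Fr.mk.symm (v 0) * B (Fr.mk.symm (v 1)) (Fr.mk.symm (v 2)) +
          Fr.mk.symm (v 1) * B (Fr.mk.symm (v 2)) (Fr.mk.symm (v 0)) +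
          Fr.mk.symm (v 2) * B (Fr.mk.symm (v 0)) (Fr.mk.symm (v 1))) /
            w ^ (3 + 2 * (m 0 + m 1 + m 2)) =
          (Fr.mk.symm (v 0) / w ^ (2 * m 0)) *
            (B' (Fr.mk.symm (v 1)) (Fr.mk.symm (v 2)) / (w ^ (2 * m 1) * w ^ (2 * m 2))) +
          (Fr.mk.symm (v 1) / w ^ (2 * m 1)) *
            (B' (Fr.mk.symm (v 2)) (Fr.mk.symm (v 0)) / (w ^ (2 * m 2) * w ^ (2 * m 0))) +
          (Fr.mk.symm (v 2) / w ^ (2 * m 2)) *
            (B' (Fr.mk.symm (v 0)) (Fr.mk.symm (v 1)) / (w ^ (2 * m 0) * w ^ (2 * m 1))) := by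
        rw [hs, hs, hs, pow_add, mul_add, mul_add, pow_add, pow_add]
        field_simp
      rw [e]
      exact add_mem (add_mem (mul_mem (hEoO d' _ h0) b12) (mul_mem (hEoO d' _ h1) b20))
        (mul_mem (hEoO d' _ h2) b01)
  · -- rank four
    rw [hr]
    obtain ⟨a, ha⟩ := lemLower hS.one hW hfinN hN hr
    have hQN : ∀ᶠ m : ℕ in atTop, PN.eval (m : ℚ) ≤ QM.eval (m : ℚ) := by
      filter_upwards [hPN, hQ] with m h1 h2
      rw [← h1, ← h2]
      haveI := hMs.finite m
      exact_mod_cast Submodule.finrank_mono (hNM m)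
    have hdeg : (C (1 / 4 : ℚ) * QM).natDegree ≤ 2 := by
      unfold QM
      rw [mul_add, mul_sub]
      compute_degree
    have h := coeff_le (P := C (1 / 4 : ℚ) * QM) (R := PN) hdeg (s := 4) (j := 0) (a := a + 1)
      (C := 0) ?_ ?_
    · rw [coeff_C_mul, coeff_C_mul] at h
      push_cast at h ⊢
      linarith
    · filter_upwards [ha, hPN, eventually_ge_atTop (a + 4)] with m h1 h2 h3
      have h4 : (4 : ℚ) * PW.eval ((m : ℚ) - a) ≤ PN.eval (m : ℚ) := by
        rw [← h2]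
        exact_mod_cast h1
      refine le_trans ?_ h4
      have h5 : (4 : ℚ) ≤ (m : ℚ) - a := by
        have : ((a + 4 : ℕ) : ℚ) ≤ (m : ℚ) := by exact_mod_cast h3
        push_cast at this
        linarith
      simp only [PW, QM, eval_add, eval_sub, eval_mul, eval_C, eval_pow, eval_X]
      push_cast
      nlinarith
    · filter_upwards [hQN] with m hm
      rw [eval_mul, eval_C]
      push_cast
      linarith


end semistable

/-- **The counterexample.** -/
theorem main (k : Type u) [Field k] [IsAlgClosed k] [CharP k 2] :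
    ∃ (K : Type u) (_ : Field K) (_ : Algebra k K) (W : Submodule k K) (𝒲 : Finset K)
      (P : ℚ[X]) (κ : ℕ),
      IsSmoothSurface W 𝒲 ∧ HasHilbertPolynomial (fun m => Module.finrank k ↥(W ^ m)) P ∧
      NoRationalCurve W 𝒲 ∧ IsCanonicalTwist W 𝒲 κ ∧ LiftsToW2 W ∧ c1sq P κ ≤ 2 * c2 P κ ∧
      ∃ (V : Type u) (_ : AddCommGroup V) (_ : Module K V) (_ : Module k V)
        (_ : IsScalarTower k K V) (M : ℕ → Submodule k V) (Q : ℚ[X]) (δ : ℕ),
        IsTorsionFreeSheaf W M ∧ 0 < rank K M ∧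
        HasHilbertPolynomial (fun m => Module.finrank k (M m)) Q ∧
        IsDetTwist W 𝒲 M (rank K M) δ ∧ IsSemistable W M ∧
        discr P κ Q (rank K M) δ < 0 := by
  obtain ⟨c, hc⟩ := exists_adm k
  obtain ⟨K, _, _, d, rfl⟩ := exists_PD c
  haveI : CharP K 2 := charP_of_injective_algebraMap (algebraMap k K).injective 2
  refine ⟨K, inferInstance, inferInstance, d.W, d.atlas, PW, 7, d.isSmoothSurface hc,
    d.hilbW hc, d.noRationalCurve, d.isCanonicalTwist hc, d.liftsToW2 hc.kumCond, ?_,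
    Fr K, inferInstance, inferInstance, inferInstance, inferInstance, d.M, QM, 3,
    d.isTorsionFreeSheaf, ?_, d.hilbM hc, ?_, d.isSemistable hc, ?_⟩
  · unfold c2 c1sq Hsq
    rw [PW_coeff2, PW_coeff0]
    norm_num
  · rw [d.rank_M]
    norm_num
  · rw [d.rank_M]
    exact d.isDetTwist
  · rw [d.rank_M]
    unfold discr ch2 Hsq
    rw [PW_coeff2, PW_coeff0, QM_coeff0]
    norm_num

end Pool.Agent.helper97.BG
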