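import Pool.Agent.helper97.BG.Defs

/-!
# Pentagon data

The explicit surface: `V i ^ 5 + V (i+2) ^ 5 V (i+3) ^ 5 = 1`, `y ^ 5 = ∑ c i V i ^ 5`.
-/

namespace Pool.Agent.helper97.BG

/-- Pentagon data in a field `K` over `k`. -/
structure PD (k K : Type*) [Field k] [Field K] [Algebra k K] where
  V : Fin 5 → K
  y : K
  c : Fin 5 → k
  rel : ∀ i, V i ^ 5 + V (i + 2) ^ 5 * V (i + 3) ^ 5 = 1
  yrel : y ^ 5 = ∑ i, algebraMap k K (c i) * V i ^ 5
  ind : AlgebraicIndependent k ![V 0, V 1]
  gen : IntermediateField.adjoin k (insert y (Set.range V)) = ⊤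

/-- `n (l+1) - n (l+2) + n (l+3) ≤ L` for all `l`. -/
def Lev (L : ℕ) (n : Fin 5 → ℕ) : Prop := ∀ l, n (l + 1) + n (l + 3) ≤ L + n (l + 2)

/-- Exponents of standard monomials. -/
def Std (n : Fin 5 → ℕ) : Prop := ∀ i, n i < 5 ∨ n (i + 1) < 5

/-- Number of standard exponents of level `L`. -/
noncomputable def hcount (L : ℕ) : ℕ := Nat.card {n : Fin 5 → ℕ // Std n ∧ Lev L n}

/-- The admissibility conditions on the coefficients (in characteristic two). -/
structure Adm {k : Type*} [Field k] (c : Fin 5 → k) : Prop where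
  one : ∀ i, c i ≠ 0
  two : ∀ i, c i + c (i + 2) ≠ 0
  three : ∀ i, c i + c (i + 1) + c (i + 2) ≠ 0
  disc : ∑ i, c i * c (i + 1) * c (i + 2) ≠ 0

/-- The conditions needed for the Kummer independence (any characteristic). -/
structure KumCond {k : Type*} [Field k] (c : Fin 5 → k) : Prop where
  h234 : c 2 + c 3 + c 4 ≠ 0
  h034 : c 0 + c 3 + c 4 ≠ 0
  h123 : c 1 + c 2 + c 3 ≠ 0
  h2 : c 2 ≠ 0
  h0 : c 0 ≠ 0

namespace PD

variable {k K : Type*} [Field k] [Field K] [Algebra k K] (d : PD k K)

/-- Monomials in `V`. -/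
def mon (n : Fin 5 → ℕ) : K := ∏ i, d.V i ^ n i

/-- The linear system `H⁰(S, O(1))`. -/
def W : Submodule k K := Submodule.span k (insert d.y {x | ∃ n, Lev 1 n ∧ x = d.mon n})

/-- The space spanned by the monomials of level `m`. -/
def Wm (m : ℕ) : Submodule k K :=
  Submodule.span k {x | ∃ n b, b ≤ m ∧ Lev (m - b) n ∧ x = d.mon n * d.y ^ b}

/-- The sheaf `E`, as a family of subspaces of `K`. -/
def Mm (m : ℕ) : Submodule k K :=
  Submodule.span k {x | ∃ n b, b ≤ m ∧ Lev (2 * (m - b)) n ∧ x = d.mon n * d.y ^ (2 * b)}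

/-- The coordinate ring `k[V, y]` of the chart `1 ≠ 0`. -/
def O : Subalgebra k K := Algebra.adjoin k (insert d.y (Set.range d.V))

/-- The ring `k[V, y ^ 2]`: the sections of `E` on the chart `1 ≠ 0`. -/
def Eo : Subalgebra k K := Algebra.adjoin k (insert (d.y ^ 2) (Set.range d.V))

/-- The sections `w = V i * V (i+1)` of `O(1)`. -/
def w (i : Fin 5) : K := d.V i * d.V (i + 1)

/-- The atlas. -/
noncomputable def atlas : Finset K := by classical exact insert 1 (Finset.univ.image d.w)

end PD

/-! ### The Frobenius twist of a field of characteristic two -/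

/-- `K` regarded as a `K`-vector space via `a • v = a ^ 2 v`. -/
def Fr (K : Type*) := K

namespace Fr

variable {k K : Type*}

instance [Field K] : AddCommGroup (Fr K) := inferInstanceAs (AddCommGroup K)

/-- The identity `K → Fr K`. -/
def mk [Field K] : K ≃+ Fr K := AddEquiv.refl K

noncomputable instance [Field K] [CharP K 2] : Module K (Fr K) :=
  Module.compHom K (frobenius K 2)

theorem smul_mk [Field K] [CharP K 2] (a v : K) : a • mk v = mk (a ^ 2 * v) := rfl

noncomputable instance [Field k] [Field K] [Algebra k K] [CharP K 2] : Module k (Fr K) :=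
  Module.compHom (Fr K) (algebraMap k K)

theorem smul_mk' [Field k] [Field K] [Algebra k K] [CharP K 2] (a : k) (v : K) :
    a • mk v = mk (algebraMap k K a ^ 2 * v) := rfl

instance [Field k] [Field K] [Algebra k K] [CharP K 2] : IsScalarTower k K (Fr K) where
  smul_assoc a b v := by
    rw [Algebra.smul_def]
    exact mul_smul (algebraMap k K a) b v

end Fr

namespace PD

variable {k K : Type*} [Field k] [Field K] [Algebra k K] [CharP K 2] (d : PD k K)

/-- The sheaf `E`, as a family of subspaces of `Fr K`. -/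
noncomputable def M (m : ℕ) : Submodule k (Fr K) where
  carrier := {v | Fr.mk.symm v ∈ d.Mm m}
  add_mem' := fun {a b} ha hb => by
    simp only [Set.mem_setOf_eq, map_add] at *
    exact (d.Mm m).add_mem ha hb
  zero_mem' := by
    simp only [Set.mem_setOf_eq, map_zero]
    exact (d.Mm m).zero_mem
  smul_mem' := fun c v hv => by
    simp only [Set.mem_setOf_eq] at *
    have h := (d.Mm m).smul_mem (c ^ 2) hv
    rw [Algebra.smul_def, map_pow] at h
    exact h

theorem mk_mem_M {m : ℕ} {v : K} : Fr.mk v ∈ d.M m ↔ v ∈ d.Mm m := Iff.rfl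

end PD

end Pool.Agent.helper97.BG
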