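import Pool.Agent.helper97.BG.PD

/-!
# Change of chart, bracket, pentagon algebra: definitions
-/

namespace Pool.Agent.helper97.BG

open Module

variable {k K : Type*} [Field k] [Field K] [Algebra k K]

/-! ### definitions -/

/-- `d'` is the pentagon data of the chart `w i = V i V (i+1)`. -/
structure IsSig (d d' : PD k K) (i : Fin 5) : Prop where
  V0 : d'.V 0 = (d.V (i + 1))⁻¹
  V1 : d'.V 1 = (d.V i)⁻¹
  V2 : d'.V 2 = d.V i * d.V (i + 4)
  V3 : d'.V 3 = d.V (i + 3) / (d.V i * d.V (i + 1))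
  V4 : d'.V 4 = d.V (i + 1) * d.V (i + 2)
  y : d'.y = d.y / (d.V i * d.V (i + 1))
  adm : Adm d.c → Adm d'.c

/-- The bracket. -/
structure IsBr (d : PD k K) (B : Derivation k K (Derivation k K K)) : Prop where
  alt : ∀ f, B f f = 0
  norm : B (d.V 0) (d.V 1) = d.V 3 ^ 9 * d.V 2 ^ 4 * d.V 4 ^ 4

/-- The derivation `Θ_j`. -/
noncomputable def PD.Th (d : PD k K) (B : Derivation k K (Derivation k K K)) (j : Fin 5) :
    Derivation k K K :=
  ((d.V (j + 2) * d.V (j + 3)) ^ 4)⁻¹ • B (d.V j)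

/-- The relations of the pentagon algebra. -/
noncomputable def QIdeal {R : Type*} [CommRing R] (c : Fin 5 → R) : Ideal (MvPolynomial (Option (Fin 5)) R) :=
  Ideal.span (insert (MvPolynomial.X none ^ 5 - ∑ i, MvPolynomial.C (c i) *
      MvPolynomial.X (some i) ^ 5)
    (Set.range fun i : Fin 5 => MvPolynomial.X (some i) ^ 5 +
      MvPolynomial.X (some (i + 2)) ^ 5 * MvPolynomial.X (some (i + 3)) ^ 5 - 1))

/-- The pentagon algebra `R[V, y]`. -/
abbrev QAlg {R : Type*} [CommRing R] (c : Fin 5 → R) : Type _ :=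
  MvPolynomial (Option (Fin 5)) R ⧸ QIdeal c

end Pool.Agent.helper97.BG
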